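import Mathlib

/-! FIRST CORNER, real analysis. `u` and `J` are nondecreasing on `[a, b]`, `u` grows at least with speed `κ` and is right
continuous, and the increment of `J` is less than the increment of `u`. Then either `u` has a jump which is larger than the
jump of `J`, or there is a point where the increments of `J` to the right are at most `q < 1` times the increments of `u`
and `h / (u (c + h) - u c)` has a limit `p` (`p > 0`: both functions are differentiable from the right, `p = 0`: the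
slope of `u` is infinite). -/

set_option autoImplicit false

namespace Pool.Agent.Helper15.FST

open Filter Topology Set MeasureTheory

noncomputable section

section

variable (u J : ℝ → ℝ) (a b : ℝ)

/-- the inverse function of `u` -/
def ivs (t : ℝ) : ℝ := sInf {c | c ∈ Icc a b ∧ t ≤ u c}

/-- `J` in the parameter `u`, with slope one in the gaps -/
def jm (t : ℝ) : ℝ := J (ivs u a b t) - (u (ivs u a b t) - t)

end

section

variable {u J : ℝ → ℝ} {a b κ : ℝ} (hab : a < b) (hκ : 0 < κ)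
  (hu : ∀ x y, a ≤ x → x ≤ y → y ≤ b → κ * (y - x) ≤ u y - u x)

include hκ hu in
theorem u_mono {x y : ℝ} (hx : a ≤ x) (hxy : x ≤ y) (hy : y ≤ b) : u x ≤ u y := by
  have h1 := hu x y hx hxy hy
  have h2 : 0 ≤ κ * (y - x) := mul_nonneg hκ.le (by linarith)
  linarith

include hκ hu in
theorem u_strict {x y : ℝ} (hx : a ≤ x) (hxy : x < y) (hy : y ≤ b) : u x < u y := by
  have h1 := hu x y hx hxy.le hy
  have h2 : 0 < κ * (y - x) := mul_pos hκ (by linarith)
  linarith

include hab in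
theorem ivs_mem {t : ℝ} (ht : t ≤ u b) : ivs u a b t ∈ Icc a b := by
  have hne : (b : ℝ) ∈ {c | c ∈ Icc a b ∧ t ≤ u c} := ⟨⟨hab.le, le_rfl⟩, ht⟩
  constructor
  · exact le_csInf ⟨b, hne⟩ fun c hc => hc.1.1
  · exact csInf_le ⟨a, fun c hc => hc.1.1⟩ hne

/-- below the inverse the function is smaller -/
theorem lt_of_lt_ivs {t c : ℝ} (hc : c ∈ Icc a b) (h : c < ivs u a b t) : u c < t := by
  by_contra hcon
  rw [not_lt] at hcon
  have h1 : ivs u a b t ≤ c := csInf_le ⟨a, fun c hc => hc.1.1⟩ ⟨hc, hcon⟩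
  linarith

include hab hκ hu in
/-- the inverse is attained -/
theorem le_u_ivs (hr : ∀ x ∈ Ico a b, ContinuousWithinAt u (Ioi x) x) {t : ℝ} (ht : t ≤ u b) :
    t ≤ u (ivs u a b t) := by
  obtain ⟨h1, h2⟩ := ivs_mem hab ht
  rcases eq_or_lt_of_le h2 with h3 | h3
  · rw [h3]
    exact ht
  have hc : Tendsto u (𝓝[>] (ivs u a b t)) (𝓝 (u (ivs u a b t))) := hr _ ⟨h1, h3⟩
  refine ge_of_tendsto hc ?_
  filter_upwards [self_mem_nhdsWithin, Ioo_mem_nhdsGT h3] with y hy hy2
  have h4 : ivs u a b t < y := hy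
  obtain ⟨c, ⟨hc1, hc2⟩, hc3⟩ := exists_lt_of_csInf_lt (s := {c | c ∈ Icc a b ∧ t ≤ u c})
    ⟨b, ⟨⟨hab.le, le_rfl⟩, ht⟩⟩ h4
  exact hc2.trans (u_mono hκ hu hc1.1 hc3.le hy2.2.le)

include hκ hu in
/-- the inverse at a value -/
theorem ivs_u {c : ℝ} (hc : c ∈ Icc a b) : ivs u a b (u c) = c := by
  apply le_antisymm
  · exact csInf_le ⟨a, fun c hc => hc.1.1⟩ ⟨hc, le_rfl⟩
  · refine le_csInf (s := {x | x ∈ Icc a b ∧ u c ≤ u x}) ⟨c, ⟨hc, le_rfl⟩⟩ ?_
    intro x hx
    by_contra hcon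
    rw [not_le] at hcon
    have := u_strict hκ hu hx.1.1 hcon hc.2
    linarith [hx.2]

include hab in
theorem ivs_mono {t t' : ℝ} (h : t ≤ t') (ht : t' ≤ u b) : ivs u a b t ≤ ivs u a b t' := by
  refine le_csInf (s := {x | x ∈ Icc a b ∧ t' ≤ u x}) ⟨b, ⟨⟨hab.le, le_rfl⟩, ht⟩⟩ ?_
  intro x hx
  exact csInf_le ⟨a, fun c hc => hc.1.1⟩ ⟨hx.1, h.trans hx.2⟩

/-- no jump of `u - J` upwards from the left -/
def NoJ (u J : ℝ → ℝ) (c : ℝ) : Prop :=
  ∀ ε : ℝ, 0 < ε → ∃ᶠ y in 𝓝[<] c, u c - J c ≤ u y - J y + ε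

include hab hκ hu in
theorem jm_mono (hJ : MonotoneOn J (Icc a b)) (hr : ∀ x ∈ Ico a b, ContinuousWithinAt u (Ioi x) x)
    (hno : ∀ c ∈ Ioc a b, NoJ u J c) : MonotoneOn (jm u J a b) (Icc (u a) (u b)) := by
  intro t ht t' ht' htt
  have h1 := ivs_mem (u := u) hab ht.2
  have h2 := ivs_mem (u := u) hab ht'.2
  have h3 : ivs u a b t ≤ ivs u a b t' := ivs_mono hab htt ht'.2
  have h4 := le_u_ivs hab hκ hu hr ht.2
  have h5 := le_u_ivs hab hκ hu hr ht'.2
  unfold jm
  rcases eq_or_lt_of_le h3 with h6 | h6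
  · rw [← h6]
    linarith
  · apply le_of_forall_pos_le_add
    intro ε hε
    have h7 := hno _ ⟨h1.1.trans_lt h6, h2.2⟩ ε hε
    have h8 : ∀ᶠ y in 𝓝[<] (ivs u a b t'), y ∈ Ioo (ivs u a b t) (ivs u a b t') := Ioo_mem_nhdsLT h6
    obtain ⟨y, hy1, hy2⟩ := (h7.and_eventually h8).exists
    have hym : y ∈ Icc a b := ⟨h1.1.trans hy2.1.le, hy2.2.le.trans h2.2⟩
    have h9 : u y < t' := lt_of_lt_ivs hym hy2.2
    have h10 : J (ivs u a b t) ≤ J y := hJ h1 hym hy2.1.le
    linarith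

include hκ hu in
theorem jm_u {c : ℝ} (hc : c ∈ Icc a b) : jm u J a b (u c) = J c := by
  unfold jm
  rw [ivs_u hκ hu hc, sub_self, sub_zero]

include hab hκ hu in
/-- a good level -/
theorem exists_level (hJ : MonotoneOn J (Icc a b)) (hr : ∀ x ∈ Ico a b, ContinuousWithinAt u (Ioi x) x)
    (hno : ∀ c ∈ Ioc a b, NoJ u J c) (hD : J b - J a < u b - u a) :
    ∃ t ∈ Ioo (u a) (u b), ∃ p q : ℝ, HasDerivAt (ivs u a b) p t ∧ HasDerivAt (jm u J a b) q t ∧ q < 1 := by
  have hα : u a < u b := u_strict hκ hu le_rfl hab le_rfl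
  have hm := jm_mono hab hκ hu hJ hr hno
  have hφ : MonotoneOn (ivs u a b) (Icc (u a) (u b)) := fun t _ t' ht' h => ivs_mono hab h ht'.2
  by_contra hcon
  have h1 : ∀ᵐ t, t ∈ Ioo (u a) (u b) → 1 ≤ deriv (jm u J a b) t := by
    filter_upwards [hm.ae_differentiableWithinAt_of_mem, hφ.ae_differentiableWithinAt_of_mem] with t h1 h2 ht
    have hti : t ∈ Icc (u a) (u b) := Ioo_subset_Icc_self ht
    have h3 : DifferentiableAt ℝ (jm u J a b) t := (h1 hti).differentiableAt (Icc_mem_nhds ht.1 ht.2)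
    have h4 : DifferentiableAt ℝ (ivs u a b) t := (h2 hti).differentiableAt (Icc_mem_nhds ht.1 ht.2)
    by_contra h5
    rw [not_le] at h5
    exact hcon ⟨t, ht, _, _, h4.hasDerivAt, h3.hasDerivAt, h5⟩
  have hm' : MonotoneOn (jm u J a b) (uIcc (u a) (u b)) := by
    rw [uIcc_of_le hα.le]
    exact hm
  have h2 := hm'.intervalIntegral_deriv_mem_uIcc
  have h3 := hm'.intervalIntegrable_deriv
  have e1 : jm u J a b (u a) = J a := jm_u hκ hu ⟨le_rfl, hab.le⟩
  have e2 : jm u J a b (u b) = J b := jm_u hκ hu ⟨hab.le, le_rfl⟩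
  have hJab : J a ≤ J b := hJ ⟨le_rfl, hab.le⟩ ⟨hab.le, le_rfl⟩ hab.le
  rw [e1, e2, uIcc_of_le (by linarith)] at h2
  have h4 : ∫ _ in (u a)..(u b), (1 : ℝ) ≤ ∫ x in (u a)..(u b), deriv (jm u J a b) x := by
    apply intervalIntegral.integral_mono_ae_restrict hα.le intervalIntegrable_const h3
    rw [← restrict_Ioo_eq_restrict_Icc, Filter.EventuallyLE, ae_restrict_iff' measurableSet_Ioo]
    exact h1
  rw [intervalIntegral.integral_const, smul_eq_mul, mul_one] at h4
  linarith [h2.2]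

include hab hκ hu in
/-- THE POINT -/
theorem exists_pt (hJ : MonotoneOn J (Icc a b)) (hr : ∀ x ∈ Ico a b, ContinuousWithinAt u (Ioi x) x)
    (hno : ∀ c ∈ Ioc a b, NoJ u J c) (hD : J b - J a < u b - u a) :
    ∃ c ∈ Ico a b, ∃ p q : ℝ, 0 ≤ p ∧ 0 ≤ q ∧ q < 1 ∧
      Tendsto (fun h => h / (u (c + h) - u c)) (𝓝[>] 0) (𝓝 p) ∧
      Tendsto (fun h => (J (c + h) - J c) / (u (c + h) - u c)) (𝓝[>] 0) (𝓝 q) := by
  obtain ⟨t, ht, p, q, hp, hq, hq1⟩ := exists_level hab hκ hu hJ hr hno hD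
  have htb : t ≤ u b := ht.2.le
  set c := ivs u a b t with hc
  have hcm : c ∈ Icc a b := ivs_mem hab htb
  have htu : t ≤ u c := le_u_ivs hab hκ hu hr htb
  have hq' : Tendsto (slope (jm u J a b) t) (𝓝[>] t) (𝓝 q) :=
    (hasDerivAt_iff_tendsto_slope.1 hq).mono_left (nhdsWithin_mono _ fun x hx => ne_of_gt hx)
  have hp' : Tendsto (slope (ivs u a b) t) (𝓝[>] t) (𝓝 p) :=
    (hasDerivAt_iff_tendsto_slope.1 hp).mono_left (nhdsWithin_mono _ fun x hx => ne_of_gt hx)
  have huc : u c = t := by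
    by_contra hne
    have hlt : t < u c := lt_of_le_of_ne htu (Ne.symm hne)
    have h1 : Tendsto (slope (jm u J a b) t) (𝓝[>] t) (𝓝 1) := by
      apply tendsto_const_nhds.congr'
      filter_upwards [Ioo_mem_nhdsGT hlt] with x hx
      have h2 : ivs u a b x = c := by
        apply le_antisymm
        · exact csInf_le ⟨a, fun c hc => hc.1.1⟩ ⟨hcm, hx.2.le⟩
        · exact ivs_mono hab hx.1.le (hx.2.le.trans (u_mono hκ hu hcm.1 hcm.2 le_rfl))
      rw [slope_def_field]
      unfold jm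
      rw [h2, ← hc]
      have h3 : x - t ≠ 0 := by linarith [hx.1] |> fun h : 0 < x - t => h.ne'
      field_simp
      ring
    have h2 := tendsto_nhds_unique hq' h1
    linarith
  have hcb : c < b := by
    rcases eq_or_lt_of_le hcm.2 with h | h
    · exfalso
      rw [h] at huc
      linarith [ht.2]
    · exact h
  have hcI : c ∈ Ico a b := ⟨hcm.1, hcb⟩
  -- the map `h ↦ u (c + h)`
  have hmap : Tendsto (fun h : ℝ => u (c + h)) (𝓝[>] 0) (𝓝[>] t) := by
    apply tendsto_nhdsWithin_iff.2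
    constructor
    · rw [← huc]
      have h1 : Tendsto (fun h : ℝ => c + h) (𝓝[>] 0) (𝓝[>] c) := by
        apply tendsto_nhdsWithin_iff.2
        constructor
        · have h2 : Tendsto (fun h : ℝ => c + h) (𝓝 0) (𝓝 (c + 0)) := tendsto_const_nhds.add tendsto_id
          rw [add_zero] at h2
          exact h2.mono_left nhdsWithin_le_nhds
        · filter_upwards [self_mem_nhdsWithin] with h hh
          have : (0 : ℝ) < h := hh
          show c < c + h
          linarith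
      exact Tendsto.comp (hr c hcI) h1
    · filter_upwards [Ioo_mem_nhdsGT (show (0 : ℝ) < b - c by linarith)] with h hh
      show t < u (c + h)
      rw [← huc]
      exact u_strict hκ hu hcm.1 (by linarith [hh.1]) (by linarith [hh.2])
  have hsmall : ∀ᶠ h : ℝ in 𝓝[>] 0, h ∈ Ioo (0 : ℝ) (b - c) := Ioo_mem_nhdsGT (by linarith)
  have hcm2 : ∀ h : ℝ, h ∈ Ioo (0 : ℝ) (b - c) → c + h ∈ Icc a b := fun h hh =>
    ⟨by linarith [hh.1, hcm.1], by linarith [hh.2]⟩
  have hJ2 : Tendsto (fun h => (J (c + h) - J c) / (u (c + h) - u c)) (𝓝[>] 0) (𝓝 q) := by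
    apply (hq'.comp hmap).congr'
    filter_upwards [hsmall] with h hh
    show slope (jm u J a b) t (u (c + h)) = _
    have e1 : jm u J a b (u (c + h)) = J (c + h) := jm_u hκ hu (hcm2 h hh)
    have e2 : jm u J a b t = J c := by
      rw [← huc]
      exact jm_u hκ hu hcm
    rw [slope_def_field, e1, e2, huc]
  have hp2 : Tendsto (fun h => h / (u (c + h) - u c)) (𝓝[>] 0) (𝓝 p) := by
    apply (hp'.comp hmap).congr'
    filter_upwards [hsmall] with h hh
    show slope (ivs u a b) t (u (c + h)) = _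
    rw [slope_def_field, ivs_u hκ hu (hcm2 h hh), ← hc, huc]
    congr 1
    ring
  refine ⟨c, hcI, p, q, ?_, ?_, hq1, hp2, hJ2⟩
  · apply ge_of_tendsto hp2
    filter_upwards [hsmall] with h hh
    have h1 := u_mono hκ hu hcm.1 (show c ≤ c + h by linarith [hh.1]) (hcm2 h hh).2
    exact div_nonneg hh.1.le (by linarith)
  · apply ge_of_tendsto hJ2
    filter_upwards [hsmall] with h hh
    have h1 := u_mono hκ hu hcm.1 (show c ≤ c + h by linarith [hh.1]) (hcm2 h hh).2
    have h2 := hJ hcm (hcm2 h hh) (by linarith [hh.1])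
    exact div_nonneg (by linarith) (by linarith)

end

end

end Pool.Agent.Helper15.FST
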