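import Pool.Agent.Helper29.MX.Bas
import Pool.Agent.Helper70.CPW.Evz
import Pool.Agent.Helper49.KL.Inv
import Pool.Agent.Helper52.GF.Mxb
import Pool.Agent.Helper15.FST.Abs
import Pool.Agent.Helper93.FST.Tk
import Pool.Agent.Helper38.NSL.Ht
import Pool.Agent.Helper94.SEL.St

/-! FIRST (ns_max_v4, section 5): numbers of a robust class, zooms over literal maximal labels with rows at a resolution
`a`, the rows (open statements) and the statement FIRST. Everything for type-labels (`R = bot`). -/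

set_option autoImplicit false

namespace Pool.Agent.Helper15.FST

open Finset Filter Topology Matrix Pool.Agent.Helper69.RK Pool.Agent.Helper31.EC Pool.Agent.Helper31.EC.Sp
open Pool.Agent.Helper40.EL Pool.Agent.Helper89.LX Pool.Agent.Helper84.MT
open Pool.Agent.Helper49.MD Pool.Agent.Helper36.AM
open Pool.Agent.Helper3.LF (Mon)
open Pool.Agent.Helper38.NSL (NI NHEt)
open Pool.Agent.Helper7.GZ (ZU Rows jac)
open Pool.Agent.Helper7.RD (PZ RW upz clz)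
open Pool.Agent.Helper70.CPW (zuz WinR)
open Pool.Agent.Helper29.MX
open Pool.Agent.Helper93.FST (TamP)

noncomputable section

variable {S T : Sp} {N : ℕ} {E : ℕ → ℕ} {ι : Type}

/-! ### numbers of a system, type-labels -/

/-- the CODIMENSION of the hull of the type-labels at the level `r`, window `c`, in units of the system -/
def UL (s : MSys S N E ι) (r c : ℝ) : ℝ :=
  if h : 0 < r ∧ r ≤ 1 then r * (N - volKO (s.trn r h.1 h.2) (rbot (S.chg S.tr r h.1)) (c / r)) else 0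

/-- the least ENTROPY of the cells of level `r` over the type-labels of the window `c` -/
def HL (s : MSys S N E ι) (r c : ℝ) : ℝ := sInf {v | ∃ l : Lab S, TLb s c l ∧ v = H (up1 l (s.Q.dg r))}

/-- a pair of types which are independent given the cells of the point (the same as helper3's `ENT.Tri`) -/
def Tri (i j : ι) (s : MSys S N E ι) : Prop := NI ((s.lf i).win 1) ((s.lf j).win 1) (pcd s.Q)

/-- ENTRIES: the members of the class (the same as helper3's `ENT.Ety`) -/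
def Ety (C : ℕ → MCl N) (m v g r : ℕ) (i j : Fin r) : ∀ S : Sp, MSys S N (lin g) (Fin r) → Prop :=
  fun S s => (C m S g r s ∧ Pool.Agent.Helper29.MX.Inv v s) ∧ Tri i j s

/-! ### zooms of one system -/

/-- ZOOM of `s` over the literal label `W` of the window `c` with unit `w`, in rows which are tame at the distance
`2 ^ (- a n)` and have the Jacobian exponent `U` -/
structure Zst (s : MSys S N E ι) (κ : ℕ) (c a w U : ℝ) where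
  W : Rsl S
  h0 : 0 ≤ c
  hu : 0 < w
  h1 : c + w ≤ 1
  z : PZ (zuz W c w h0 hu h1) s.Q N
  t : MSys ((Lab.ofZ W).ovr w hu) N (lin κ) ι
  tQ : t.Q = z.X
  win : WinR s W c hu t
  tlb : TLb s c (Lab.ofZ W)
  ca : c ≤ a
  aw : a + w ≤ 1
  tam : TamP z a
  dom : ∃ K : ℕ → ℝ, S.Sub K ∧ Typ (S := (Lab.ofZ W).sp) (fun k ω =>
    (1 + (jac (z.R.p k ω) (s.Q.v k (((Lab.ofZ W) k).p.π ω))).transpose *
      jac (z.R.p k ω) (s.Q.v k (((Lab.ofZ W) k).p.π ω))).det ≤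
        K k * (jac (z.R.p k ω) (s.Q.v k (((Lab.ofZ W) k).p.π ω))).det ^ 2)
  det : ∃ K : ℕ → ℝ, S.Sub K ∧ Typ (S := (Lab.ofZ W).sp) (fun k ω =>
    2 ^ (2 * U * (S.F k).n) ≤ K k * (jac (z.R.p k ω) (s.Q.v k (((Lab.ofZ W) k).p.π ω))).det ^ 2 ∧
      (jac (z.R.p k ω) (s.Q.v k (((Lab.ofZ W) k).p.π ω))).det ^ 2 ≤ K k * 2 ^ (2 * U * (S.F k).n))

/-- labels of the zoom as labels of the system -/
abbrev Zst.cl {s : MSys S N E ι} {κ : ℕ} {c a w U : ℝ} (Z : Zst s κ c a w U) (l : Lab ((Lab.ofZ Z.W).ovr w Z.hu)) :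
    Lab S := (Lab.ofZ Z.W).comp w Z.hu l

/-! ### rows: one system -/

/-- [LEV] (helper60) levels: the codimension increases with the level and with the window; the entropy of the cells of
level `e` over the best type-label is at most `N e - UL`; truncations -/
def ROW_LEV : Prop := ∀ (S : Sp) (N g r : ℕ) (s : MSys S N (lin g) (Fin r)),
  (∀ c : ℝ, 0 ≤ c → c ≤ 1 → UL s 1 c = N - volKO s (rbot S) c) ∧
  (∀ e e' c : ℝ, 0 < e → e ≤ e' → e' ≤ 1 → 0 ≤ c → c ≤ e → UL s e c ≤ UL s e' c) ∧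
  (∀ e c c' : ℝ, 0 < e → e ≤ 1 → 0 ≤ c → c ≤ c' → c' ≤ e → UL s e c ≤ UL s e c') ∧
  (∀ e c : ℝ, 0 < e → e ≤ 1 → 0 ≤ c → c ≤ e → HL s e c ≤ N * e - UL s e c) ∧
  (∀ (a e c : ℝ) (h0 : 0 < a) (h1 : a ≤ 1), 0 < e → e ≤ 1 → 0 ≤ c → c ≤ e →
    a * UL (s.trn a h0 h1) e c = UL s (a * e) (a * c) ∧ a * HL (s.trn a h0 h1) e c = HL s (a * e) (a * c))

/-- [LVF] (helper60) the hull does not change between the levels `e` and `1`: there is a form of the window `c` of least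
volume (in all degrees) with gradient at most `2 ^ (e n)`; the degree depends only on `N`, `g` -/
def ROW_LVF : Prop := ∀ (N g r : ℕ), 1 ≤ g → (∀ m, m < N → STu m) → ∃ D : ℕ, 1 ≤ D ∧ ∀ (S : Sp)
  (s : MSys S N (lin g) (Fin r)) (e c : ℝ), 0 < e → e < 1 → 0 ≤ c → c ≤ e → UL s 1 c ≤ UL s e c →
    ∃ y : ∀ k, FD (S.F k) (Mon N D), KAd s (rbot S) D c y ∧ vol s.Q D y ≤ volKO s (rbot S) c ∧ GrB s.Q y (1 - e)

/-- [TRV] (helper25, helper46) if the codimension is at most `e` on all events, the hull does not change between the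
levels `e` and `1` -/
def ROW_TRV : Prop := ∀ (N g r : ℕ), 1 ≤ g → (∀ m, m < N → STu m) → ∀ (S : Sp) (s : MSys S N (lin g) (Fin r))
  (e c : ℝ), 0 < e → e < 1 → 0 ≤ c → c ≤ e → (∀ (T : Sp) (p : Pj T S) (A : ∀ k, (T.F k).Ω → Prop)
    (hA : 0 < ul (T.pr A)), UL (s.im p A hA) 1 c ≤ e) → UL s 1 c ≤ UL s e c

/-- [RGU] (helper82) if the codimensions of all events are at most `UL s e c`, they are equal to it -/
def ROW_RGU : Prop := ∀ (N g r : ℕ) (S : Sp) (s : MSys S N (lin g) (Fin r)) (e c : ℝ), 0 < e → e ≤ 1 → 0 ≤ c → c ≤ e →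
  (∀ (T : Sp) (p : Pj T S) (A : ∀ k, (T.F k).Ω → Prop) (hA : 0 < ul (T.pr A)), UL (s.im p A hA) e c ≤ UL s e c) →
    ∀ (T : Sp) (p : Pj T S) (A : ∀ k, (T.F k).Ω → Prop) (hA : 0 < ul (T.pr A)), UL (s.im p A hA) e c = UL s e c

/-- [EXH] (helper61) the hull changes between the levels `e` and `1` ==> on an event there is a form over a type-label
whose volume is at most the entropy over every type-label, up to `δ > 1 - e`; the degree depends only on `N`, `g` -/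
def ROW_EXH : Prop := ∀ (N g r : ℕ), 1 ≤ g → 1 ≤ N → (∀ m, m < N → STu m) → ∃ D₀ : ℕ, 1 ≤ D₀ ∧ ∀ D : ℕ, D₀ ≤ D →
  ∀ (S : Sp) (s : MSys S N (lin g) (Fin r)) (e c δ : ℝ), 0 < e → e < 1 → 1 - e < δ → 0 ≤ c → c ≤ e →
    UL s e c < UL s 1 c → ∃ (A : ∀ k, (S.F k).Ω → Prop) (hA : 0 < ul (S.pr A))
      (x : ∀ k, FD ((Sp.im (Pj.id S) A).F k) (Mon N D)), KAd (s.im (Pj.id S) A hA) (rbot _) D c x ∧
        ∀ l, TLb (s.im (Pj.id S) A hA) c l →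
          vol (s.im (Pj.id S) A hA).Q D x ≤ H (up1 l ((s.im (Pj.id S) A hA).Q.dg 1)) + δ

/-- [KAP] (helper13) maximal labels have the least entropies -/
def ROW_KAP : Prop := ∀ (N g r : ℕ) (i j : Fin r) (S : Sp) (s : MSys S N (lin g) (Fin r)), Tri i j s →
  ∀ (c : ℝ) (l : Lab S), 0 ≤ c → c ≤ 1 → s.IsKap c l → TLb s c l ∧
    ∀ e : ℝ, 0 < e → e ≤ 1 → H (up1 l (s.Q.dg e)) ≤ HL s e c

/-- [IMZ] (helper56) events of extensions of a zoom are zooms of events of extensions of the system -/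
def ROW_IMZ : Prop := ∀ (S : Sp) (N g r κ : ℕ) (s : MSys S N (lin g) (Fin r)) (c a w U : ℝ) (Z : Zst s κ c a w U)
  (T : Sp) (p : Pj T ((Lab.ofZ Z.W).ovr w Z.hu)) (A : ∀ k, (T.F k).Ω → Prop) (hA : 0 < ul (T.pr A)),
  ∃ (T' : Sp) (p' : Pj T' S) (A' : ∀ k, (T'.F k).Ω → Prop) (hA' : 0 < ul (T'.pr A'))
    (Z' : Zst (s.im p' A' hA') κ c a w U), (⟨_, Z'.t⟩ : Σ S : Sp, MSys S N (lin κ) (Fin r)) = ⟨_, Z.t.im p A hA⟩ ∧
      ∀ k, Z'.W k = Z.W k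

/-- [N1] (helper93) volumes of the zoom at all levels -/
def ROW_N1 : Prop := ∀ (S : Sp) (N g r κ : ℕ) (s : MSys S N (lin g) (Fin r)) (c a w U : ℝ) (Z : Zst s κ c a w U)
  (e b : ℝ), 0 < e → e ≤ 1 → 0 ≤ b → b ≤ e → w * UL Z.t e b ≤ UL s (a + w * e) (c + w * b) - U

/-- [N2] (helper80) unit directions: the cells of the zoom over the label -/
def ROW_N2 : Prop := ∀ (S : Sp) (N g r κ v : ℕ) (s : MSys S N (lin g) (Fin r)) (c a w U : ℝ) (Z : Zst s κ c a w U)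
  (e : ℝ), 0 ≤ e → e ≤ 1 → Inv v s →
    w * H (Z.t.Q.dg e) ≤ H (up1 (Lab.ofZ Z.W) (s.Q.dg (a + w * e))) - v * (a - c)

/-- [N3] (helper80) type-labels of the zoom are type-labels of the system; the fiber of the cells of the zoom -/
def ROW_N3 : Prop := ∀ (S : Sp) (N g r κ : ℕ) (s : MSys S N (lin g) (Fin r)) (c a w U : ℝ) (Z : Zst s κ c a w U)
  (b : ℝ), 0 ≤ b → b ≤ 1 → ∀ l : Lab ((Lab.ofZ Z.W).ovr w Z.hu), TLb Z.t b l →
    TLb s (c + w * b) (Z.cl l) ∧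
      H (up1 (Z.cl l) (s.Q.dg (a + w))) - (N * a - U) ≤ w * H (up1 l (Z.t.Q.dg 1))

/-- [N4] (helper80) the information of a label of the zoom about its point is at most the information about the point of
the system -/
def ROW_N4 : Prop := ∀ (S : Sp) (N g r κ : ℕ) (s : MSys S N (lin g) (Fin r)) (c a w U : ℝ) (Z : Zst s κ c a w U)
  (e : ℝ), 0 < e → e ≤ 1 →
    (∀ l : Lab ((Lab.ofZ Z.W).ovr w Z.hu), w * (H (Z.t.Q.dg e) - H (up1 l (Z.t.Q.dg e))) ≤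
      H (up1 (Lab.ofZ Z.W) (s.Q.dg 1)) - H (up1 (Z.cl l) (s.Q.dg 1))) ∧
    ∀ V V' : Rsl ((Lab.ofZ Z.W).ovr w Z.hu), (∀ k, V' k ≤ V k) →
      w * (H (up1 (Lab.ofZ V) (Z.t.Q.dg e)) - H (up1 (Lab.ofZ V') (Z.t.Q.dg e))) ≤
        H (up1 (Z.cl (Lab.ofZ V)) (s.Q.dg 1)) - H (up1 (Z.cl (Lab.ofZ V')) (s.Q.dg 1))

/-- [N5] (helper80) type-labels of the system lift to type-labels of the zoom -/
def ROW_N5 : Prop := ∀ (S : Sp) (N g r κ : ℕ) (s : MSys S N (lin g) (Fin r)) (c a w U : ℝ) (Z : Zst s κ c a w U)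
  (b : ℝ), 0 ≤ b → b ≤ 1 → ∀ l : Lab S, TLb s (c + w * b) l → TLb Z.t b ((Lab.ofZ Z.W).ovl w Z.hu l) ∧
    H (up1 (Z.cl ((Lab.ofZ Z.W).ovl w Z.hu l)) (s.Q.dg 1)) ≤ H (up1 l (s.Q.dg 1))

/-- [CLZ] (helper80) literal labels of a zoom as literal labels of the system -/
def ROW_CLZ : Prop := ∀ (S : Sp) (N g r κ : ℕ) (s : MSys S N (lin g) (Fin r)) (c a w U : ℝ) (Z : Zst s κ c a w U)
  (V : Rsl S) (e c' : ℝ),
    H (up1 (Z.cl (Lab.ofZ (S := (Lab.ofZ Z.W).ovr w Z.hu) V)) (s.Q.dg e)) = H (up1 (Lab.ofZ fun k => Z.W k ⊓ V k) (s.Q.dg e)) ∧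
    (TLb s c' (Z.cl (Lab.ofZ (S := (Lab.ofZ Z.W).ovr w Z.hu) V)) → TLb s c' (Lab.ofZ fun k => Z.W k ⊓ V k))

/-- [EQ] (helper15, from helper49) an unsaturated hull has the same volume in the zoom -/
def ROW_EQ : Prop := ∀ (S : Sp) (N g r κ : ℕ) (s : MSys S N (lin g) (Fin r)) (c a w U : ℝ) (Z : Zst s κ c a w U)
  (b e : ℝ), 0 ≤ b → b ≤ 1 → 0 < e → e ≤ 1 → ∀ (D : ℕ), 1 ≤ D → ∀ y : ∀ k, FD (((Lab.ofZ Z.W).ovr w Z.hu).F k) (Mon N D),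
    KAd Z.t (rbot _) D b y → vol Z.t.Q D y ≤ volKO Z.t (rbot _) b → GrB Z.t.Q y e →
      UL s 1 (c + w * b) = U + w * UL Z.t 1 b

/-! ### existence of zooms -/

/-- [ZEX] (helper4, 15) zooms of systems with constant prefix volumes at the level `a` -/
def ROW_ZEX (N : ℕ) : Prop := ∀ (A : MCl N) (C : ℕ → MCl N), Okc N A C → (∀ m, m < N → STu m) → ∀ (v m g r : ℕ)
  (i j : Fin r) (c₀ : ℝ), 1 ≤ g → 0 < c₀ → ∃ κ : ℕ, 1 ≤ κ ∧ ∀ (S : Sp) (s : MSys S N (lin g) (Fin r)),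
    Ety C m v g r i j S s → ∀ (c a w : ℝ) (P : ℕ → ℝ), c₀ ≤ c → c < a → 0 < w → a + w ≤ 1 →
      (∀ (h0 : 0 < a) (h1 : a ≤ 1) (T : Sp) (p : Pj T S) (B : ∀ k, (T.F k).Ω → Prop) (hB : 0 < ul (T.pr B)) (j : ℕ)
        (hj : j ≤ N), volP ((s.im p B hB).trn a h0 h1) (rbot _) (c / a) hj = P j) →
        ∃ Z : Zst s κ c a w (a * (N - P N)), s.IsKap c (Lab.ofZ Z.W) ∧ C m _ κ r Z.t ∧ Inv v Z.t ∧
          (∀ i, (Z.t.lf i).e = (s.lf i).e) ∧ Pool.Agent.Helper26.OUT.WDs (fun _ => (κ : ℝ)) Z.t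

/-- [ZMX] (helper63, numbers of zooms; helper37, conversion) zooms over maximal labels at a rigid window `c`, in optimal
flag rows; the hull of the window `c` is complete at the level `a`; numbers of all prefixes. `κ` depends on `c₀`, `g`, the
dimensions `e0` only -/
def ROW_ZMX (M : ℕ) : Prop := ∀ (A : MCl (M + 1)) (C : ℕ → MCl (M + 1)), 1 ≤ M → Okc (M + 1) A C →
  (∀ m, m < M + 1 → STu m) → ∀ (v m g r e0 : ℕ) (i j : Fin r) (c₀ : ℝ), 1 ≤ g → 0 < c₀ → ∃ κ : ℕ, 1 ≤ κ ∧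
    ∀ (S : Sp) (s : MSys S (M + 1) (lin g) (Fin r)), Ety C m v g r i j S s → (∀ i, (s.lf i).e ≤ e0) →
      ∀ c a w b1 : ℝ, c₀ ≤ c → c < a → 0 < w → a + w ≤ 1 → 0 < b1 → b1 ≤ 1 → UL s 1 c ≤ UL s a c →
        (∀ (T : Sp) (p : Pj T S) (B : ∀ k, (T.F k).Ω → Prop) (hB : 0 < ul (T.pr B)) (c' : ℝ), c ≤ c' → c' < c + w * b1 →
          ∀ (j : ℕ) (hj : j ≤ M + 1), volP (s.im p B hB) (rbot _) c' hj = volP s (rbot S) c' hj) →
        (∀ b : ℝ, 0 ≤ b → b < b1 → UL s 1 (c + w * b) < UL s 1 c + w) →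
          ∃ Z : Zst s κ c a w (UL s 1 c), s.IsKap c (Lab.ofZ Z.W) ∧
            Pool.Agent.Helper94.SEL.BK (C m) v κ r e0 b1 _ Z.t (rbot _) ∧
            ∀ b : ℝ, 0 ≤ b → b < b1 → ∀ (j : ℕ) (hj : j ≤ M + 1), Pool.Agent.Helper94.SEL.num Z.t (rbot _) hj b =
              (Pool.Agent.Helper94.SEL.num s (rbot S) hj (c + w * b) - Pool.Agent.Helper94.SEL.num s (rbot S) hj c) / w

/-! ### robust classes -/

/-- the members of a class of objects which are entries -/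
def Mem (C : ℕ → MCl N) (m v g r : ℕ) (i j : Fin r) (P : (KM N (Fin r)).Pd) (S : Sp) (s : MSys S N (lin g) (Fin r)) :
    Prop := Ety C m v g r i j S s ∧ P S (ob s)

/-- ROBUST CLASSES with numbers: `u e c` codimensions, `h e c` least entropies, `V e c j` volumes of the prefixes,
levels `e` in the set `L` -/
structure FC (C : ℕ → MCl N) (m v g r : ℕ) (i j : Fin r) (L : Set ℝ) (u h : ℝ → ℝ → ℝ) (V : ℝ → ℝ → ℕ → ℝ)
    (P : (KM N (Fin r)).Pd) : Prop where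
  cls : Cls P
  ety : ∀ S x, P S x → lft (Ety C m v g r i j) S x
  ul : ∀ S s, Mem C m v g r i j P S s → ∀ e ∈ L, 0 < e → e ≤ 1 → ∀ c : ℝ, 0 ≤ c → c ≤ e → UL s e c = u e c
  hl : ∀ S s, Mem C m v g r i j P S s → ∀ e ∈ L, 0 < e → e ≤ 1 → ∀ c : ℝ, 0 ≤ c → c ≤ 1 → HL s e c = h e c
  pf : ∀ S s, Mem C m v g r i j P S s → ∀ e ∈ L, ∀ (h0 : 0 < e) (h1 : e ≤ 1) (c : ℝ), 0 ≤ c → c ≤ e →
    ∀ (j : ℕ) (hj : j ≤ N), volP (s.trn e h0 h1) (rbot (S.chg S.tr e h0)) (c / e) hj = V e c j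

/-- [RFC] (helper3, 52) robust subclasses -/
def ROW_RFC (N : ℕ) : Prop := ∀ (A : MCl N) (C : ℕ → MCl N), Okc N A C → (∀ m, m < N → STu m) → ∀ (m v g r : ℕ)
  (i j : Fin r) (P : (KM N (Fin r)).Pd), 1 ≤ g → Cls P → (∀ S x, P S x → lft (Ety C m v g r i j) S x) →
    ∀ L : Set ℝ, L.Countable → ∃ (P' : (KM N (Fin r)).Pd) (u h : ℝ → ℝ → ℝ) (V : ℝ → ℝ → ℕ → ℝ),
      (∀ S x, P' S x → P S x) ∧ FC C m v g r i j L u h V P'

/-- [CST] (helper13) labels of least entropy: the same entropy on all events -/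
def ROW_CST (N : ℕ) : Prop := ∀ (C : ℕ → MCl N) (m v g r : ℕ) (i j : Fin r) (L : Set ℝ) (u h : ℝ → ℝ → ℝ)
  (V : ℝ → ℝ → ℕ → ℝ) (P : (KM N (Fin r)).Pd), FC C m v g r i j L u h V P → ∀ S s, Mem C m v g r i j P S s →
  ∀ e ∈ L, 0 < e → e ≤ 1 → ∀ c : ℝ, 0 ≤ c → c ≤ 1 → ∀ W : Rsl S, TLb s c (Lab.ofZ W) →
    H (up1 (Lab.ofZ W) (s.Q.dg e)) ≤ h e c → ∀ (T : Sp) (p : Pj T S) (A : ∀ k, (T.F k).Ω → Prop)
      (hA : 0 < ul (T.pr A)), TLb (s.im p A hA) c (Lab.ofZ (S := Sp.im p A) W) ∧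
        H (up1 (Lab.ofZ (S := Sp.im p A) W) ((s.im p A hA).Q.dg e)) ≤ h e c

/-- [NUM] (helper89) the numbers of a robust class -/
def ROW_NUM (N : ℕ) : Prop := ∀ (A : MCl N) (C : ℕ → MCl N), Okc N A C → (∀ m, m < N → STu m) → ∀ (m v g r : ℕ)
  (i j : Fin r) (L : Set ℝ) (u h : ℝ → ℝ → ℝ) (V : ℝ → ℝ → ℕ → ℝ) (P : (KM N (Fin r)).Pd), 1 ≤ g → 1 ≤ N →
  FC C m v g r i j L u h V P → (∀ e : ℚ, (0 : ℝ) < e → (e : ℝ) ≤ 1 → (e : ℝ) ∈ L) →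
    (∀ c : ℝ, 0 ≤ c → c < 1 → ContinuousWithinAt (u 1) (Set.Ioi c) c) ∧
    /- local speed at least `N` below saturation -/
    (∀ e ∈ L, ∀ c c' : ℝ, 0 < e → e < 1 → 0 ≤ c → c ≤ e → c ≤ c' → c' ≤ 1 → u e c = u 1 c →
      N * min (c' - c) (1 - e) ≤ u 1 c' - u 1 c) ∧
    u 1 1 = N ∧ h 1 1 = 0 ∧
    (∀ e ∈ L, ∀ c c' : ℝ, 0 < e → e ≤ 1 → 0 ≤ c → c ≤ c' → c' ≤ 1 → h e c' ≤ h e c) ∧
    /- information increments increase with the level -/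
    (∀ e ∈ L, ∀ e' ∈ L, ∀ c c' : ℝ, 0 < e → e ≤ e' → e' ≤ 1 → 0 ≤ c → c ≤ c' → c' ≤ 1 → h e c - h e c' ≤ h e' c - h e' c') ∧
    /- unit directions -/
    (∀ e ∈ L, ∀ c : ℝ, 0 < e → e ≤ 1 → 0 ≤ c → c ≤ e → v * (e - c) ≤ h e c) ∧
    /- saturation: no deficit -/
    (∀ c : ℝ, 0 ≤ c → c < 1 → (∀ e : ℚ, c < e → (e : ℝ) < 1 → u e c < u 1 c) → N - u 1 c ≤ h 1 c)

/-! ### the input of NSLJ, limits -/

/-- the total exponent at the level `b` of a hull with exponents `E` -/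
def gam (E : Fin N → ℝ) (b : ℝ) : ℝ := ∑ j, min (E j) b

/-- transversal at the window `0` and at the level `b`, beyond the threshold `γ / b` -/
def NHb (s : MSys S N E ι) (γ b : ℝ) : Prop := ∀ (h0 : 0 < b) (h1 : b ≤ 1) (D : ℕ), NHEt (s.trn b h0 h1).Q D
  (Pool.Agent.Helper38.NSL.optW (rbot (S.chg S.tr b h0)) fun i : ι => Pool.Agent.Helper38.NSL.wn (s.trn b h0 h1) 0 i)
  (Pool.Agent.Helper38.NSL.C3 N D) (γ / b)

/-- INPUT OF [NSLJ]: transversal at the window `0` and at all levels beyond the threshold `gam`, at most the entropy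
allowed by `gam`, deficient at the level `1` -/
structure JT (C : MCl N) (v g r e0 : ℕ) (E : Fin N → ℝ) (d : ℝ) (S : Sp) (s : MSys S N (lin g) (Fin r)) : Prop where
  cl : C S g r s
  inv : Inv v s
  dim : ∀ i, (s.lf i).e ≤ e0
  pol : Pool.Agent.Helper26.OUT.WDs (fun _ => (g : ℝ)) s
  dfb : ∀ (T : Sp) (p : Pj T S) (A : ∀ k, (T.F k).Ω → Prop) (hA : 0 < ul (T.pr A)) (b : ℝ), 0 ≤ b → b ≤ 1 →
    H ((s.im p A hA).Q.dg b) ≤ N * b - gam E b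
  dfc : ∀ (T : Sp) (p : Pj T S) (A : ∀ k, (T.F k).Ω → Prop) (hA : 0 < ul (T.pr A)),
    H ((s.im p A hA).Q.dg 1) ≤ N - gam E 1 - d
  nh : ∀ b : ℝ, 0 < b → b ≤ 1 → NHb s (gam E b) b

/-- FULL literal type-label of the window `c`, up to `ε` -/
def Ful (s : MSys S N E ι) (D : ℕ) (c ε : ℝ) (V : Rsl S) : Prop := ∃ x : ∀ k, FD (S.F k) (Mon N D),
  (∀ k, (x k).l = Lab.ofZ V k) ∧ KAd s (rbot S) D c x ∧ vol s.Q D x ≤ H (up1 (Lab.ofZ V) (s.Q.dg 1)) + ε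

/-- **[NSLJ]** (helper66, 87): no full type-label -/
def NSLJ (N : ℕ) : Prop := ∀ (A : MCl N) (C : ℕ → MCl N), Okc N A C → (∀ m, m < N → STu m) → ∀ v : ℕ,
  STO N (Cv A (v + 1)) → ∀ (m g r e0 : ℕ) (E : Fin N → ℝ) (d : ℝ), 1 ≤ g → 0 < r → 1 ≤ N → 0 < d →
    (∀ j, 0 ≤ E j ∧ E j < 1) → (∀ b : ℝ, 0 < b → b ≤ 1 → gam E b < (N - v) * b) →
      ∀ (S : Sp) (s : MSys S N (lin g) (Fin r)), JT (C m) v g r e0 E d S s →
        ∀ (D : ℕ) (V : Rsl S), 1 ≤ D → ¬ Ful s D 0 0 V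

/-- [LIMJ] (helper36) slow limits of systems with full labels of windows `b j → 0` -/
def ROW_LIMJ (N : ℕ) : Prop := ∀ (A : MCl N) (C : ℕ → MCl N), Okc N A C → (∀ m, m < N → STu m) →
  ∀ (v m g r e0 D : ℕ) (E : Fin N → ℝ) (d : ℝ) (b ε : ℕ → ℝ), 1 ≤ g → 1 ≤ D →
    (∀ j, 0 ≤ b j ∧ b j ≤ 1) → Tendsto b atTop (𝓝 0) → (∀ j, 0 ≤ ε j) → Tendsto ε atTop (𝓝 0) →
    ∀ (S : ℕ → Sp) (t : ∀ j, MSys (S j) N (lin g) (Fin r)) (V : ∀ j, Rsl (S j)),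
      (∀ j, C m (S j) g r (t j)) → (∀ j, Inv v (t j)) → (∀ j i, ((t j).lf i).e ≤ e0) →
      (∀ j, Pool.Agent.Helper26.OUT.WDs (fun _ => (g : ℝ)) (t j)) →
      (∀ (j : ℕ) (T : Sp) (p : Pj T (S j)) (A : ∀ k, (T.F k).Ω → Prop) (hA : 0 < ul (T.pr A)),
        H (((t j).im p A hA).Q.dg 1) ≤ N - gam E 1 - d + ε j ∧
          ∀ b : ℝ, 0 ≤ b → b ≤ 1 → H (((t j).im p A hA).Q.dg b) ≤ N * b - gam E b + ε j) →
      (∀ (j : ℕ) (b : ℝ), 0 < b → b ≤ 1 → NHb (t j) (gam E b + ε j) b) →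
      (∀ j, Ful (t j) D (b j) (ε j) (V j)) →
        ∃ (S' : Sp) (T : MSys S' N (lin g) (Fin r)) (V' : Rsl S'), JT (C m) v g r e0 E d S' T ∧ Ful T D 0 0 V'

/-- [EXPO] (helper93, 80 with LVL) the codimensions of a deficient window at all levels -/
def ROW_EXPO (N : ℕ) : Prop := ∀ (A : MCl N) (C : ℕ → MCl N), Okc N A C → (∀ m, m < N → STu m) → ∀ (m v g r : ℕ)
  (i j : Fin r) (L : Set ℝ) (u h : ℝ → ℝ → ℝ) (V : ℝ → ℝ → ℕ → ℝ) (P : (KM N (Fin r)).Pd), 1 ≤ g → 1 ≤ N →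
  FC C m v g r i j L u h V P → (∀ e : ℚ, (0 : ℝ) < e → (e : ℝ) ≤ 1 → (e : ℝ) ∈ L) →
    ∀ c : ℝ, 0 < c → c < 1 → h 1 c < N - u 1 c →
      ∃ E : Fin N → ℝ, (∀ i, c ≤ E i ∧ E i < 1) ∧ ∀ e ∈ L, c ≤ e → e ≤ 1 → u e c = gam E e

/-! ### linear classes -/

/-- LINEAR TOTAL EXPONENT `w0 c` up to `ε` (rigid, stable, all prefixes; 94's `BK`), deficient at all levels, literal
optimal type-labels of information rate `q` -/
structure FA {M : ℕ} (C : MCl (M + 1)) (v g r e0 D0 : ℕ) (q w0 ε : ℝ) (S : Sp) (s : MSys S (M + 1) (lin g) (Fin r)) :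
    Prop where
  bk : Pool.Agent.Helper94.SEL.BK C v g r e0 ((1 - ε) / w0) S s (rbot S)
  tot : ∀ c : ℝ, 0 ≤ c → w0 * c < 1 - ε → |Pool.Agent.Helper94.SEL.tot s (rbot S) c - w0 * c| ≤ ε
  dfc : ∀ (T : Sp) (p : Pj T S) (A : ∀ k, (T.F k).Ω → Prop) (hA : 0 < ul (T.pr A)) (b : ℝ), 0 ≤ b → b ≤ 1 →
    H ((s.im p A hA).Q.dg b) ≤ (M + q) * b + ε
  inf : ∃ (W : ℚ → Rsl S) (x : ℚ → ∀ k, FD (S.F k) (Mon (M + 1) D0)), (∀ b k, (x b k).l = Lab.ofZ (W b) k) ∧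
    ∀ b : ℚ, (0 : ℝ) ≤ b → w0 * b < 1 - ε → KAd s (rbot S) D0 b (x b) ∧ vol s.Q D0 (x b) ≤ volKO s (rbot S) b ∧
      ∀ b' : ℚ, b ≤ b' → w0 * b' < 1 - ε → ∀ (T : Sp) (p : Pj T S) (A : ∀ k, (T.F k).Ω → Prop) (hA : 0 < ul (T.pr A)),
        H (up1 (Lab.ofZ (S := Sp.im p A) (W b)) ((s.im p A hA).Q.dg 1)) -
          H (up1 (Lab.ofZ (S := Sp.im p A) fun k => W b k ⊓ W b' k) ((s.im p A hA).Q.dg 1)) ≤ q * w0 * (b' - b) + ε

/-- [LIMF] (helper62) slow limits of linear classes -/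
def ROW_LIMF (M : ℕ) : Prop := ∀ (A : MCl (M + 1)) (C : ℕ → MCl (M + 1)), 1 ≤ M → Okc (M + 1) A C →
  (∀ m, m < M + 1 → STu m) → ∀ v : ℕ, STO (M + 1) (Cv A (v + 1)) → ∀ (m g r e0 D0 : ℕ) (q w0 : ℝ) (ε : ℕ → ℝ),
    1 ≤ g → 0 < r → 1 ≤ D0 → 0 ≤ q → q < 1 → 1 ≤ w0 → (∀ j, 0 ≤ ε j) → Tendsto ε atTop (𝓝 0) →
      DiagTo (fun j => lft (FA (C m) v g r e0 D0 q w0 (ε j))) (lft (FA (C m) v g r e0 D0 q w0 0))

/-! ### the three cases -/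

/-- the local data: `c` the window, `a` a level at which the hull is complete -/
structure Loc (L : Set ℝ) (u h : ℝ → ℝ → ℝ) (c a p q : ℝ) : Prop where
  rat : ∀ e : ℚ, (0 : ℝ) < e → (e : ℝ) ≤ 1 → (e : ℝ) ∈ L
  c0 : 0 < c
  ca : c ≤ a
  a1 : a < 1
  aL : a ∈ L
  ua : u a c = u 1 c
  p0 : 0 ≤ p
  q0 : 0 ≤ q
  q1 : q < 1
  tp : Tendsto (fun x => x / (u 1 (c + x) - u 1 c)) (𝓝[>] 0) (𝓝 p)
  tq : Tendsto (fun x => (h 1 c - h 1 (c + x)) / (u 1 (c + x) - u 1 c)) (𝓝[>] 0) (𝓝 q)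

/-- [A] (helper17) positive speed: zooms at `c` with small units are linear up to a small error -/
def ROW_A (M : ℕ) : Prop := ∀ (A : MCl (M + 1)) (C : ℕ → MCl (M + 1)), 1 ≤ M → Okc (M + 1) A C →
  (∀ m, m < M + 1 → STu m) → ∀ (m v g r : ℕ) (i j : Fin r) (L : Set ℝ) (u h : ℝ → ℝ → ℝ) (V : ℝ → ℝ → ℕ → ℝ)
  (P : (KM (M + 1) (Fin r)).Pd), 1 ≤ g → FC C m v g r i j L u h V P → ∀ c a p q : ℝ, Loc L u h c a p q → 0 < p →
    ∃ κ e0 D0 : ℕ, 1 ≤ κ ∧ 1 ≤ D0 ∧ 1 ≤ p⁻¹ ∧ ∀ ε : ℝ, 0 < ε → ∃ S s, FA (C m) v κ r e0 D0 q p⁻¹ ε S s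

/-- [B] (helper39) infinite speed is impossible -/
def ROW_B (N : ℕ) : Prop := ∀ (A : MCl N) (C : ℕ → MCl N), Okc N A C → (∀ m, m < N → STu m) → ∀ (m v g r : ℕ)
  (i j : Fin r) (L : Set ℝ) (u h : ℝ → ℝ → ℝ) (V : ℝ → ℝ → ℕ → ℝ) (P : (KM N (Fin r)).Pd), 1 ≤ g → 1 ≤ N →
  STO N (Cv A (v + 1)) → FC C m v g r i j L u h V P → ∀ c a q : ℝ, ¬ Loc L u h c a 0 q

/-- [C] (helper15) no jumps: `θ` the top exponent of the window `c`, `a` the resolution -/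
def ROW_C (N : ℕ) : Prop := ∀ (A : MCl N) (C : ℕ → MCl N), Okc N A C → (∀ m, m < N → STu m) → ∀ (m v g r : ℕ)
  (i j : Fin r) (L : Set ℝ) (u h : ℝ → ℝ → ℝ) (V : ℝ → ℝ → ℕ → ℝ) (P : (KM N (Fin r)).Pd), 1 ≤ g → 1 ≤ N →
  STO N (Cv A (v + 1)) → FC C m v g r i j L u h V P → (∀ e : ℚ, (0 : ℝ) < e → (e : ℝ) ≤ 1 → (e : ℝ) ∈ L) →
  ∀ c a θ ε : ℝ, 0 < c → c ≤ a → a < θ → θ ≤ 1 → a ∈ L → 0 < ε →
    /- the top exponent -/
    (∀ e : ℚ, c ≤ e → (e : ℝ) < θ → u e c < u 1 c) → (∀ e : ℚ, θ < e → (e : ℝ) ≤ 1 → u e c = u 1 c) →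
    /- the jump -/
    (∀ᶠ y in 𝓝[<] c, u 1 y + h 1 y + ε ≤ u 1 c + h 1 c) →
    /- the resolution -/
    (∀ η : ℝ, 0 < η → ∀ᶠ y in 𝓝[<] c, N * a - u a y ≤ v * (a - y) + η) →
    (∀ e : ℚ, a < e → (e : ℝ) ≤ 1 → ∃ η : ℝ, 0 < η ∧ ∀ᶠ y in 𝓝[<] c, u e y - u a y ≤ (N - v) * (e - a) - η) → False

end

end Pool.Agent.Helper15.FST
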