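import Pool.Agent.Helper15.FST.Csy

/-! Case (C) of FIRST: the numbers of a class (`Nums`), the two cases of a zoom, and `ROW_C` from the other rows. -/

set_option autoImplicit false

namespace Pool.Agent.Helper15.FST

open Finset Filter Topology Matrix Pool.Agent.Helper69.RK Pool.Agent.Helper31.EC Pool.Agent.Helper31.EC.Sp
open Pool.Agent.Helper40.EL Pool.Agent.Helper89.LX Pool.Agent.Helper84.MT
open Pool.Agent.Helper49.MD Pool.Agent.Helper36.AM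
open Pool.Agent.Helper3.LF (Mon)
open Pool.Agent.Helper38.NSL (NI NHEt)
open Pool.Agent.Helper29.MX

noncomputable section

variable {S T : Sp} {N : ℕ} {E : ℕ → ℕ} {ι : Type}
variable {A : MCl N} {C : ℕ → MCl N} {m v g r : ℕ} {i j : Fin r} {P : (KM N (Fin r)).Pd}
variable {L : Set ℝ} {u h : ℝ → ℝ → ℝ} {V : ℝ → ℝ → ℕ → ℝ}

/-! ### the numbers -/

theorem tlb_triv [Finite ι] (s : MSys S N E ι) (c : ℝ) : TLb s c (fun k => FLab.triv (S.F k)) :=
  (tlb_iff s c _).mp (Pool.Agent.Helper61.SEL.KLb_triv s (rbot S) c)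

theorem HL_le (s : MSys S N E ι) {e c : ℝ} {l : Lab S} (hl : TLb s c l) : HL s e c ≤ H (up1 l (s.Q.dg e)) :=
  csInf_le ⟨0, by
    rintro x ⟨l', _, rfl⟩
    exact H_nonneg _⟩ ⟨l, hl, rfl⟩

theorem le_HL [Finite ι] (s : MSys S N E ι) {e c x : ℝ} (h : ∀ l : Lab S, TLb s c l → x ≤ H (up1 l (s.Q.dg e))) : x ≤ HL s e c :=
  le_csInf ⟨_, _, tlb_triv s c, rfl⟩ (by
    rintro x ⟨l', hl, rfl⟩
    exact h l' hl)

/-- **SATURATION**, quantitative: if the hull changes between the levels `e < e'`, the deficit at the level `e'` is at most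
`e' - e` -/
theorem sat_of (hLEV : ROW_LEV) (hEXH : ROW_EXH) (hst : ∀ m, m < N → STu m) (hg : 1 ≤ g) (hN : 1 ≤ N) (hC : Okc N A C)
    (hF : FC C m v g r i j L u h V P) {e e' y : ℝ} (he : e ∈ L) (he' : e' ∈ L) (h0 : 0 < e) (h1 : e < e') (h2 : e' ≤ 1)
    (hy : 0 ≤ y) (hye : y ≤ e) (hu : u e y < u e' y) : N * e' - u e' y - h e' y ≤ e' - e := by
  obtain ⟨S, x, hx⟩ := hF.cls.ne
  obtain ⟨s, hs1, hs2⟩ := hF.ety S x hx
  have hs : Mem C m v g r i j P S s := ⟨hs2, hF.cls.ev S x (ob s) (hs1.mono fun _ hk => hk.symm) hx⟩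
  have h0' : 0 < e' := h0.trans h1
  have hye' : y ≤ e' := hye.trans h1.le
  obtain ⟨D₀, hD₀, hE⟩ := hEXH N g r hg hN hst
  have hl := (hLEV S N g r s).2.2.2.2
  have hq0 : 0 < e / e' := div_pos h0 h0'
  have hq1 : e / e' < 1 := (div_lt_one h0').mpr h1
  have hy0 : 0 ≤ y / e' := div_nonneg hy h0'.le
  have hy1 : y / e' ≤ e / e' := div_le_div_of_nonneg_right hye h0'.le
  have m1 : e' * (e / e') = e := mul_div_cancel₀ _ h0'.ne'
  have m2 : e' * (y / e') = y := mul_div_cancel₀ _ h0'.ne'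
  have a1 := (hl e' (e / e') (y / e') h0' h2 hq0 hq1.le hy0 hy1).1
  have a2 := (hl e' 1 (y / e') h0' h2 one_pos le_rfl hy0 (hy1.trans hq1.le)).1
  rw [m1, m2, hF.ul S s hs e he h0 (h1.le.trans h2) y hy hye] at a1
  rw [mul_one, m2, hF.ul S s hs e' he' h0' h2 y hy hye'] at a2
  have hu' : UL (s.trn e' h0' h2) (e / e') (y / e') < UL (s.trn e' h0' h2) 1 (y / e') := by
    have : e' * UL (s.trn e' h0' h2) (e / e') (y / e') < e' * UL (s.trn e' h0' h2) 1 (y / e') := by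
      rw [a1, a2]
      exact hu
    exact lt_of_mul_lt_mul_left this h0'.le
  have key : ∀ δ : ℝ, 1 - e / e' < δ → N * e' - u e' y ≤ h e' y + e' * δ := by
    intro δ hδ
    obtain ⟨B, hB, z, hz, hz'⟩ := hE D₀ le_rfl (S.chg S.tr e' h0') (s.trn e' h0' h2) (e / e') (y / e') δ hq0 hq1 hδ hy0 hy1 hu'
    have hB' : 0 < ul (S.pr B) := hB
    have hm := mem_im hC hF.cls hs (Pj.id S) B hB'
    have b1 := (hLEV _ N g r (s.im (Pj.id S) B hB')).2.2.2.2 e' 1 (y / e') h0' h2 one_pos le_rfl hy0 (hy1.trans hq1.le)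
    rw [mul_one, m2, hF.ul _ _ hm e' he' h0' h2 y hy hye', hF.hl _ _ hm e' he' h0' h2 y hy (hye'.trans h2)] at b1
    have b2 : volKO ((s.trn e' h0' h2).im (Pj.id (S.chg S.tr e' h0')) B hB) (rbot _) (y / e') ≤
        HL ((s.trn e' h0' h2).im (Pj.id (S.chg S.tr e' h0')) B hB) 1 (y / e') + δ := by
      have b3 : volKO ((s.trn e' h0' h2).im (Pj.id (S.chg S.tr e' h0')) B hB) (rbot _) (y / e') - δ ≤
          HL ((s.trn e' h0' h2).im (Pj.id (S.chg S.tr e' h0')) B hB) 1 (y / e') := by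
        refine le_HL _ fun l hl => ?_
        have b4 := hz' l hl
        have b5 : volKO ((s.trn e' h0' h2).im (Pj.id (S.chg S.tr e' h0')) B hB) (rbot _) (y / e') ≤ _ := volKO_le_of hz
        linarith
      linarith
    have b6 : e' * (N - volKO (((s.im (Pj.id S) B hB').trn e' h0' h2)) (rbot _) (y / e')) = u e' y := by
      rw [← hF.ul _ _ hm e' he' h0' h2 y hy hye', UL_eq _ h0' h2]
    have b7 : volKO (((s.im (Pj.id S) B hB').trn e' h0' h2)) (rbot _) (y / e') ≤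
        HL ((s.im (Pj.id S) B hB').trn e' h0' h2) 1 (y / e') + δ := b2
    have b8 := mul_le_mul_of_nonneg_left b7 h0'.le
    rw [mul_add, b1.2] at b8
    linarith
  have h5 : N * e' - u e' y ≤ h e' y + e' * (1 - e / e') := by
    refine le_of_forall_pos_le_add fun ε hε => ?_
    have h6 := key (1 - e / e' + ε) (by linarith)
    have h7 : e' * ε ≤ ε := mul_le_of_le_one_left hε.le h2
    linarith
  have h6 : e' * (1 - e / e') = e' - e := by
    rw [mul_sub, mul_one, m1]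
  linarith

/-- the numbers of a robust class -/
theorem nums_of (hLEV : ROW_LEV) (hEXH : ROW_EXH) (hNUM : ROW_NUM N) (hEXPO : ROW_EXPO N) (hst : ∀ m, m < N → STu m)
    (hg : 1 ≤ g) (hN : 1 ≤ N) (hC : Okc N A C) (hF : FC C m v g r i j L u h V P)
    (rat : ∀ e : ℚ, (0 : ℝ) < e → (e : ℝ) ≤ 1 → (e : ℝ) ∈ L) : Nums N v L u h := by
  obtain ⟨S, x, hx⟩ := hF.cls.ne
  obtain ⟨s, hs1, hs2⟩ := hF.ety S x hx
  have hs : Mem C m v g r i j P S s := ⟨hs2, hF.cls.ev S x (ob s) (hs1.mono fun _ hk => hk.symm) hx⟩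
  refine ⟨rat, ?_, ?_, ?_, ?_, ?_, ?_⟩
  · intro e he y h0 h1 hy hye
    have h2 := (hLEV S N g r s).2.2.2.1 e y h0 h1 hy hye
    rwa [hF.hl S s hs e he h0 h1 y hy (hye.trans h1), hF.ul S s hs e he h0 h1 y hy hye] at h2
  · intro e he e' he' y h0 h1 h2 hy hye
    constructor
    · have h3 := (hLEV S N g r s).2.1 e e' y h0 h1 h2 hy hye
      rwa [hF.ul S s hs e he h0 (h1.trans h2) y hy hye, hF.ul S s hs e' he' (h0.trans_le h1) h2 y hy (hye.trans h1)] at h3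
    · rw [← hF.hl S s hs e he h0 (h1.trans h2) y hy (hye.trans (h1.trans h2)),
        ← hF.hl S s hs e' he' (h0.trans_le h1) h2 y hy (hye.trans (h1.trans h2))]
      exact le_HL s fun l hl => (HL_le s hl).trans (H_lev s.Q l h1)
  · intro e he y y' h0 h1 hy hyy hye
    have h3 := (hLEV S N g r s).2.2.1 e y y' h0 h1 hy hyy hye
    rwa [hF.ul S s hs e he h0 h1 y hy (hyy.trans hye), hF.ul S s hs e he h0 h1 y' (hy.trans hyy) hye] at h3
  · exact (hNUM A C hC hst m v g r i j L u h V P hg hN hF rat).2.2.2.2.2.1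
  · exact hEXPO A C hC hst m v g r i j L u h V P hg hN hF rat
  · intro e he e' he' y h0 h1 h2 hy hye hu
    exact sat_of hLEV hEXH hst hg hN hC hF he he' h0 h1 h2 hy hye hu

/-! ### full labels of the zoom -/

/-- the unsaturated case -/
theorem ful_u {D_L D : ℕ} (hLEV : ROW_LEV) (hEQ : ROW_EQ) (hN3 : ROW_N3) {s : MSys S N (lin g) (Fin r)} {κ : ℕ}
    {y a w c x e U H₀ : ℝ} (Z : Zst s κ y a w U) (hDL : 1 ≤ D_L) (hD : D_L ≤ D) (hx0 : 0 ≤ x) (hx1 : x ≤ 1)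
    (hc : y + w * x = c) (he : e < 1) (he0 : 0 < e)
    (hLVF : ∃ z : ∀ k, FD (((Lab.ofZ Z.W).ovr w Z.hu).F k) (Mon N D_L), KAd Z.t (rbot _) D_L x z ∧
      vol Z.t.Q D_L z ≤ volKO Z.t (rbot _) x ∧ GrB Z.t.Q z (1 - e))
    {δ : ℝ} (hH : H₀ ≤ HL s (a + w) c) (hδ : N * (a + w) - UL s 1 c - H₀ ≤ δ) :
    ∃ V, Ful Z.t D x (δ / w) V := by
  obtain ⟨z, hz1, hz2, hz3⟩ := hLVF
  have h1 := hEQ S N g r κ s y a w U Z x (1 - e) hx0 hx1 (by linarith) (by linarith) D_L hDL z hz1 hz2 hz3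
  rw [hc, (hLEV _ N κ r Z.t).1 x hx0 hx1] at h1
  obtain ⟨V, f, hV, hf, hVT, hfo⟩ := lit_form Z.t D x
  refine ⟨V, f, hV, hf, ?_⟩
  obtain ⟨h2, h3⟩ := hN3 S N g r κ s y a w U Z x hx0 hx1 (Lab.ofZ V) hVT
  rw [hc] at h2
  have h4 := HL_le s (e := a + w) h2
  have h5 := hfo D_L hD z hz1
  have hw := Z.hu
  have h6 : w * vol Z.t.Q D f ≤ w * (H (up1 (Lab.ofZ V) (Z.t.Q.dg 1)) + δ / w) := by
    rw [mul_add, mul_div_cancel₀ _ hw.ne']
    have h7 : w * vol Z.t.Q D f ≤ w * volKO Z.t (rbot _) x := mul_le_mul_of_nonneg_left (h5.trans hz2) hw.le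
    linarith
  exact le_of_mul_le_mul_left h6 hw

/-- the saturated case, on an event -/
theorem ful_s {D : ℕ} {t : MSys S N (lin g) (Fin r)} {x δ : ℝ}
    (hE : ∃ (B : ∀ k, (S.F k).Ω → Prop) (hB : 0 < ul (S.pr B)) (z : ∀ k, FD ((Sp.im (Pj.id S) B).F k) (Mon N D)),
      KAd (t.im (Pj.id S) B hB) (rbot _) D x z ∧ ∀ l, TLb (t.im (Pj.id S) B hB) x l →
        vol (t.im (Pj.id S) B hB).Q D z ≤ H (up1 l ((t.im (Pj.id S) B hB).Q.dg 1)) + δ) :
    ∃ (B : ∀ k, (S.F k).Ω → Prop) (hB : 0 < ul (S.pr B)) (V : Rsl (Sp.im (Pj.id S) B)),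
      Ful (t.im (Pj.id S) B hB) D x δ V := by
  obtain ⟨B, hB, z, hz1, hz2⟩ := hE
  obtain ⟨V, f, hV, hf, hVT, hfo⟩ := lit_form (t.im (Pj.id S) B hB) D x
  exact ⟨B, hB, V, f, hV, hf, (hfo D le_rfl z hz1).trans (hz2 _ hVT)⟩

/-! ### one zoom -/

/-- what the limit row needs, for one system -/
structure Gt (C : MCl N) (v g r e0 D : ℕ) (E : Fin N → ℝ) (d b η : ℝ) (S : Sp) (t : MSys S N (lin g) (Fin r))
    (V : Rsl S) : Prop where
  cl : C S g r t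
  inv : Pool.Agent.Helper29.MX.Inv v t
  dim : ∀ i, (t.lf i).e ≤ e0
  pol : Pool.Agent.Helper26.OUT.WDs (fun _ => (g : ℝ)) t
  bds : AllE (Bds E d η) S t (rbot S)
  ful : Ful t D b η V

theorem Gt.nhb {C : MCl N} {e0 D : ℕ} {E : Fin N → ℝ} {d b η : ℝ} {t : MSys S N (lin g) (Fin r)} {V : Rsl S}
    (h : Gt C v g r e0 D E d b η S t V) (x : ℝ) : NHb t (gam E x + η) x :=
  nhb_of t fun h0 h1 B hB => (h.bds S (Pj.id S) B hB).2.2 x h0 h1

theorem Ful.mono {t : MSys S N E ι} {D : ℕ} {x δ δ' : ℝ} {V : Rsl S} (h : Ful t D x δ V) (hd : δ ≤ δ') :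
    Ful t D x δ' V := by
  obtain ⟨f, h1, h2, h3⟩ := h
  exact ⟨f, h1, h2, by linarith⟩

theorem Bds.mono {E : Fin N → ℝ} {d η η' : ℝ} {t : MSys S N (lin g) (Fin r)} {R : Rsl S} (h : Bds E d η S t R)
    (hη : η ≤ η') : Bds E d η' S t R :=
  ⟨fun b a1 a2 => (h.1 b a1 a2).trans (by linarith), h.2.1.trans (by linarith),
    fun b a1 a2 => (h.2.2 b a1 a2).trans (by linarith)⟩

end

end Pool.Agent.Helper15.FST
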