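import Pool.Agent.Helper15.FST.St

/-! Case (C) of FIRST, the real part (open statement, helper10). -/

set_option autoImplicit false

namespace Pool.Agent.Helper15.FST

open Finset Filter Topology

/-- the numbers of a robust class -/
structure Nums (N v : ℕ) (L : Set ℝ) (u h : ℝ → ℝ → ℝ) : Prop where
  rat : ∀ e : ℚ, (0 : ℝ) < e → (e : ℝ) ≤ 1 → (e : ℝ) ∈ L
  cnt : ∀ e ∈ L, ∀ y : ℝ, 0 < e → e ≤ 1 → 0 ≤ y → y ≤ e → h e y ≤ N * e - u e y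
  lev : ∀ e ∈ L, ∀ e' ∈ L, ∀ y : ℝ, 0 < e → e ≤ e' → e' ≤ 1 → 0 ≤ y → y ≤ e → u e y ≤ u e' y ∧ h e y ≤ h e' y
  win : ∀ e ∈ L, ∀ y y' : ℝ, 0 < e → e ≤ 1 → 0 ≤ y → y ≤ y' → y' ≤ e → u e y ≤ u e y'
  inc : ∀ e ∈ L, ∀ e' ∈ L, ∀ y y' : ℝ, 0 < e → e ≤ e' → e' ≤ 1 → 0 ≤ y → y ≤ y' → y' ≤ 1 →
    h e y - h e y' ≤ h e' y - h e' y'
  expo : ∀ y : ℝ, 0 < y → y < 1 → h 1 y < N - u 1 y → ∃ F : Fin N → ℝ, (∀ i, y ≤ F i ∧ F i < 1) ∧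
    ∀ e ∈ L, y ≤ e → e ≤ 1 → u e y = gam F e
  sat : ∀ e ∈ L, ∀ e' ∈ L, ∀ y : ℝ, 0 < e → e < e' → e' ≤ 1 → 0 ≤ y → y ≤ e → u e y < u e' y →
    N * e' - u e' y - h e' y ≤ e' - e

/-- [CNUM] (helper10) the numbers of the zooms at a jump -/
def CNUM : Prop := ∀ (N v : ℕ) (L : Set ℝ) (u h : ℝ → ℝ → ℝ), 1 ≤ N → Nums N v L u h →
  ∀ c a θ ε : ℝ, 0 < c → c ≤ a → a < θ → θ ≤ 1 → a ∈ L → 0 < ε →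
    (∀ e : ℚ, c ≤ e → (e : ℝ) < θ → u e c < u 1 c) → (∀ e : ℚ, θ < e → (e : ℝ) ≤ 1 → u e c = u 1 c) →
    (∀ᶠ y in 𝓝[<] c, u 1 y + h 1 y + ε ≤ u 1 c + h 1 c) →
    (∀ η : ℝ, 0 < η → ∀ᶠ y in 𝓝[<] c, N * a - u a y ≤ v * (a - y) + η) →
    (∀ e : ℚ, a < e → (e : ℝ) ≤ 1 → ∃ η : ℝ, 0 < η ∧ ∀ᶠ y in 𝓝[<] c, u e y - u a y ≤ (N - v) * (e - a) - η) →
      ∃ E : Fin N → ℝ, (∀ i, 0 ≤ E i ∧ E i < 1) ∧ (∀ b : ℝ, 0 < b → b ≤ 1 → gam E b < (N - v) * b) ∧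
        ∀ δ : ℝ, 0 < δ → ∃ (y r p : ℝ) (F : Fin N → ℝ), c / 2 ≤ y ∧ y < c ∧ c - y ≤ δ ∧ r ∈ L ∧ p ∈ L ∧ θ ≤ r ∧ r ≤ 1 ∧
          c ≤ p ∧ p < r ∧ r - p ≤ δ ∧ u p c < u r c ∧ u r c = u 1 c ∧
          (∀ e ∈ L, y ≤ e → e ≤ 1 → u e y = gam F e) ∧ (∑ i, |max (F i - a) 0 / (r - a) - E i| ≤ δ) ∧
          ε ≤ N * r - u r y - h r y ∧ N * a - u a y ≤ v * (a - y) + δ

end Pool.Agent.Helper15.FST
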