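import Pool.Agent.Helper15.FST.Cn
import Pool.Agent.Helper52.MW.Ime
import Pool.Agent.Helper26.OUT.Wl
import Pool.Agent.Helper61.SEL.Exo

/-! Case (C) of FIRST, the systems: the zooms at a window `y` and a resolution `a` of a member of a robust class. -/

set_option autoImplicit false

namespace Pool.Agent.Helper15.FST

open Finset Filter Topology Matrix Pool.Agent.Helper69.RK Pool.Agent.Helper31.EC Pool.Agent.Helper31.EC.Sp
open Pool.Agent.Helper40.EL Pool.Agent.Helper89.LX Pool.Agent.Helper84.MT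
open Pool.Agent.Helper49.MD Pool.Agent.Helper36.AM
open Pool.Agent.Helper3.LF (Mon)
open Pool.Agent.Helper38.NSL (NI NHEt)
open Pool.Agent.Helper29.MX

noncomputable section

variable {S T : Sp} {N : ℕ} {E : ℕ → ℕ} {ι : Type}

/-! ### the function `gam` -/

theorem gam_mono (F : Fin N → ℝ) {b b' : ℝ} (h : b ≤ b') : gam F b ≤ gam F b' :=
  Finset.sum_le_sum fun _ _ => min_le_min le_rfl h

theorem gam_lip (F : Fin N → ℝ) {b b' : ℝ} (h : b ≤ b') : gam F b' ≤ gam F b + N * (b' - b) := by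
  have h1 : gam F b' ≤ ∑ i : Fin N, (min (F i) b + (b' - b)) := Finset.sum_le_sum fun i _ => by
    rcases le_total (F i) b with h2 | h2
    · rw [min_eq_left h2, min_eq_left (h2.trans h)]
      linarith
    · rw [min_eq_right h2]
      linarith [min_le_right (F i) b']
  rw [Finset.sum_add_distrib, Finset.sum_const, Finset.card_univ, Fintype.card_fin, nsmul_eq_mul] at h1
  exact h1

/-- the exponents beyond `a` in the unit `w` -/
def shf (F : Fin N → ℝ) (a w : ℝ) : Fin N → ℝ := fun i => max (F i - a) 0 / w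

theorem gam_shf (F : Fin N → ℝ) {a w b : ℝ} (hw : 0 < w) (hb : 0 ≤ b) :
    gam F (a + w * b) - gam F a = w * gam (shf F a w) b := by
  unfold gam shf
  rw [← Finset.sum_sub_distrib, Finset.mul_sum]
  refine Finset.sum_congr rfl fun i _ => ?_
  have h1 : w * min (max (F i - a) 0 / w) b = min (max (F i - a) 0) (w * b) := by
    rw [mul_min_of_nonneg _ _ hw.le, mul_div_cancel₀ _ hw.ne']
  rw [h1]
  have h2 : 0 ≤ w * b := mul_nonneg hw.le hb
  rcases le_total (F i) a with h3 | h3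
  · rw [min_eq_left h3, min_eq_left (by linarith), max_eq_right (by linarith), min_eq_left h2]
    ring
  · rw [min_eq_right h3, max_eq_left (by linarith)]
    rcases le_total (F i) (a + w * b) with h4 | h4
    · rw [min_eq_left h4, min_eq_left (by linarith)]
    · rw [min_eq_right h4, min_eq_right (by linarith)]
      ring

theorem gam_close (F G : Fin N → ℝ) (b : ℝ) : |gam F b - gam G b| ≤ ∑ i, |F i - G i| := by
  unfold gam
  rw [← Finset.sum_sub_distrib]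
  refine (Finset.abs_sum_le_sum_abs _ _).trans (Finset.sum_le_sum fun i _ => ?_)
  rw [abs_le]
  constructor
  · rcases le_total (G i) b with h | h
    · rw [min_eq_left h]
      rcases le_total (F i) b with h' | h'
      · rw [min_eq_left h']
        linarith [neg_abs_le (F i - G i)]
      · rw [min_eq_right h']
        linarith [abs_nonneg (F i - G i)]
    · rw [min_eq_right h]
      rcases le_total (F i) b with h' | h'
      · rw [min_eq_left h']
        linarith [neg_abs_le (F i - G i)]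
      · rw [min_eq_right h']
        linarith [abs_nonneg (F i - G i)]
  · rcases le_total (F i) b with h | h
    · rw [min_eq_left h]
      rcases le_total (G i) b with h' | h'
      · rw [min_eq_left h']
        linarith [le_abs_self (F i - G i)]
      · rw [min_eq_right h']
        linarith [abs_nonneg (F i - G i)]
    · rw [min_eq_right h]
      rcases le_total (G i) b with h' | h'
      · rw [min_eq_left h']
        linarith [le_abs_self (F i - G i)]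
      · rw [min_eq_right h']
        linarith [abs_nonneg (F i - G i)]

theorem le_of_lev {L : Set ℝ} (rat : ∀ e : ℚ, (0 : ℝ) < e → (e : ℝ) ≤ 1 → (e : ℝ) ∈ L) {g : ℝ → ℝ} {K x X : ℝ}
    (hx : 0 < x) (hx1 : x ≤ 1) (hK : 0 ≤ K) (hg : ∀ e, x ≤ e → g e ≤ g x + K * (e - x))
    (h : ∀ e ∈ L, x ≤ e → e ≤ 1 → X ≤ g e) : X ≤ g x := by
  rcases hx1.lt_or_eq with h1 | h1
  · refine le_of_forall_pos_le_add fun ε hε => ?_
    obtain ⟨q, h2, h3⟩ := exists_rat_btwn (show x < min 1 (x + ε / (K + 1)) from lt_min h1 (by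
      have : 0 < ε / (K + 1) := div_pos hε (by linarith)
      linarith))
    have h4 := h q (rat q (hx.trans h2) (h3.le.trans (min_le_left _ _))) h2.le (h3.le.trans (min_le_left _ _))
    have h5 := hg q h2.le
    have h6 : (q : ℝ) - x ≤ ε / (K + 1) := by
      have := h3.le.trans (min_le_right _ _)
      linarith
    have h7 : K * ((q : ℝ) - x) ≤ K * (ε / (K + 1)) := mul_le_mul_of_nonneg_left h6 hK
    have h8 : K * (ε / (K + 1)) ≤ ε := by
      rw [mul_div_assoc', div_le_iff₀ (by linarith)]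
      nlinarith
    linarith
  · have h2 := h 1 (by
      have := rat 1 (by norm_num) (by norm_num)
      simpa using this) h1.le le_rfl
    rwa [← h1] at h2

/-! ### basic facts -/

theorem UL_eq (s : MSys S N E ι) {e : ℝ} (h0 : 0 < e) (h1 : e ≤ 1) (c : ℝ) :
    UL s e c = e * (N - volKO (s.trn e h0 h1) (rbot (S.chg S.tr e h0)) (c / e)) := dif_pos ⟨h0, h1⟩

theorem Tri.im {i j : ι} {s : MSys S N E ι} (h : Tri i j s) (p : Pj T S) (A : ∀ k, (T.F k).Ω → Prop)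
    (hA : 0 < ul (T.pr A)) : Tri i j (s.im p A hA) := by
  have h1 := NI.im h p A hA
  have e1 : ((s.im p A hA).lf i).win 1 = ((s.lf i).win 1).im p A := win_im p A hA (s.lf i) 1
  have e2 : ((s.im p A hA).lf j).win 1 = ((s.lf j).win 1).im p A := win_im p A hA (s.lf j) 1
  show NI _ _ _
  rw [e1, e2]
  exact h1

theorem inv_im {v : ℕ} {s : MSys S N E ι} (h : Pool.Agent.Helper29.MX.Inv v s) (p : Pj T S)
    (A : ∀ k, (T.F k).Ω → Prop) (hA : 0 < ul (T.pr A)) : Pool.Agent.Helper29.MX.Inv v (s.im p A hA) := by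
  refine ⟨h.1, fun i => ?_⟩
  have h1 : AllE (fun S (t : MSys S N E ι) _ => ∀ (c c' : ℝ), 0 ≤ c → c ≤ c' → c' ≤ 1 →
      (v : ℝ) * (c' - c) ≤ ul (fun k => Pool.Agent.Helper31.EC.h (fc (Setoid.ker (t.Q.cellv c' k)))
        ((t.lf i).win c k) / (S.F k).n)) S s (rbot S) := h.2 i
  exact Pool.Agent.Helper52.MW.AllE_im h1 p A hA

variable {A : MCl N} {C : ℕ → MCl N} {m v g r : ℕ} {i j : Fin r} {P : (KM N (Fin r)).Pd}

theorem mem_im (hC : Okc N A C) (hP : Cls P) {s : MSys S N (lin g) (Fin r)} (h : Mem C m v g r i j P S s)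
    (p : Pj T S) (B : ∀ k, (T.F k).Ω → Prop) (hB : 0 < ul (T.pr B)) :
    Mem C m v g r i j P (Sp.im p B) (s.im p B hB) :=
  ⟨⟨⟨hC.im m S g r s h.1.1.1 T p B hB, inv_im h.1.1.2 p B hB⟩, h.1.2.im p B hB⟩, hP.im S (ob s) h.2 T p B hB⟩

/-! ### the zoom of one member -/

/-- the numbers of a member over a literal label `W` of the window `y`, at all levels of `L` -/
structure GW (L : Set ℝ) (F : Fin N → ℝ) (y r ε : ℝ) (s : MSys S N E ι) (W : Rsl S) : Prop where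
  ul : ∀ e ∈ L, 0 < e → e ≤ 1 → y ≤ e → UL s e y ≤ gam F e
  hw : ∀ e ∈ L, 0 < e → e ≤ 1 → y ≤ e → H (up1 (Lab.ofZ W) (s.Q.dg e)) ≤ N * e - gam F e
  hr : H (up1 (Lab.ofZ W) (s.Q.dg r)) ≤ N * r - gam F r - ε

/-- the entropy of the cells over a label increases with the level -/
theorem H_lev (Q : S.VV N) (l : Lab S) {x e : ℝ} (h : x ≤ e) : H (up1 l (Q.dg x)) ≤ H (up1 l (Q.dg e)) :=
  H_mono (up1_mono _ (VV.dg_mono Q h))

theorem GW.ul' {L : Set ℝ} (rat : ∀ e : ℚ, (0 : ℝ) < e → (e : ℝ) ≤ 1 → (e : ℝ) ∈ L) (hLEV : ROW_LEV)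
    {F : Fin N → ℝ} {y r' ε : ℝ} {s : MSys S N (lin g) (Fin r)} {W : Rsl S} (h : GW L F y r' ε s W) (hy : 0 ≤ y) {x : ℝ}
    (hx : 0 < x) (hx1 : x ≤ 1) (hyx : y ≤ x) : UL s x y ≤ gam F x := by
  refine le_of_lev rat (g := gam F) (K := N) hx hx1 (Nat.cast_nonneg _) (fun e he => gam_lip F he) fun e heL he he1 => ?_
  exact ((hLEV S N g r s).2.1 x e y hx he he1 hy hyx).trans (h.ul e heL (hx.trans_le he) he1 (hyx.trans he))

theorem GW.hw' {L : Set ℝ} (rat : ∀ e : ℚ, (0 : ℝ) < e → (e : ℝ) ≤ 1 → (e : ℝ) ∈ L)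
    {F : Fin N → ℝ} {y r' ε : ℝ} {s : MSys S N (lin g) (Fin r)} {W : Rsl S} (h : GW L F y r' ε s W) {x : ℝ}
    (hx : 0 < x) (hx1 : x ≤ 1) (hyx : y ≤ x) : H (up1 (Lab.ofZ W) (s.Q.dg x)) ≤ N * x - gam F x := by
  refine le_of_lev rat (g := fun e => N * e - gam F e) (K := N) hx hx1 (Nat.cast_nonneg _) (fun e he => ?_)
    fun e heL he he1 => (H_lev s.Q (Lab.ofZ W) he).trans (h.hw e heL (hx.trans_le he) he1 (hyx.trans he))
  have h1 := gam_mono F he
  show N * e - gam F e ≤ N * x - gam F x + N * (e - x)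
  linarith

/-- the codimensions of the zoom at the window `0` -/
theorem GW.zul {L : Set ℝ} (rat : ∀ e : ℚ, (0 : ℝ) < e → (e : ℝ) ≤ 1 → (e : ℝ) ∈ L) (hLEV : ROW_LEV) (hN1 : ROW_N1)
    {F : Fin N → ℝ} {y r' ε a w : ℝ} {s : MSys S N (lin g) (Fin r)} {κ : ℕ} (Z : Zst s κ y a w (gam F a))
    (h : GW L F y r' ε s Z.W) (ha : 0 < a) {b : ℝ} (hb : 0 < b) (hb1 : b ≤ 1) :
    UL Z.t b 0 ≤ gam (shf F a w) b := by
  have h1 := hN1 S N g r κ s y a w (gam F a) Z b 0 hb hb1 le_rfl hb.le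
  rw [mul_zero, add_zero] at h1
  have hw := Z.hu
  have h2 : 0 < w * b := mul_pos hw hb
  have h3 : w * b ≤ w := mul_le_of_le_one_right hw.le hb1
  have h4 := h.ul' rat hLEV Z.h0 (x := a + w * b) (by linarith) (by linarith [Z.aw]) (by linarith [Z.ca])
  have h5 := gam_shf F (a := a) hw hb.le
  have h6 : w * UL Z.t b 0 ≤ w * gam (shf F a w) b := by linarith
  exact le_of_mul_le_mul_left h6 hw

/-- the entropies of the zoom -/
theorem GW.zH {L : Set ℝ} (rat : ∀ e : ℚ, (0 : ℝ) < e → (e : ℝ) ≤ 1 → (e : ℝ) ∈ L) (hN2 : ROW_N2) {v : ℕ}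
    {F : Fin N → ℝ} {y r' ε a w δ : ℝ} {s : MSys S N (lin g) (Fin r)} {κ : ℕ} (Z : Zst s κ y a w (gam F a))
    (h : GW L F y r' ε s Z.W) (hi : Pool.Agent.Helper29.MX.Inv v s) (ha : 0 < a) (hδ : N * a - gam F a ≤ v * (a - y) + δ)
    {b : ℝ} (hb : 0 ≤ b) (hb1 : b ≤ 1) : H (Z.t.Q.dg b) ≤ N * b - gam (shf F a w) b + δ / w := by
  have h1 := hN2 S N g r κ v s y a w (gam F a) Z b hb hb1 hi
  have hw := Z.hu
  have h2 : 0 ≤ w * b := mul_nonneg hw.le hb
  have h3 : w * b ≤ w := mul_le_of_le_one_right hw.le hb1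
  have h4 := h.hw' rat (x := a + w * b) (by linarith) (by linarith [Z.aw]) (by linarith [Z.ca])
  have h5 := gam_shf F (a := a) hw hb
  have h6 : w * H (Z.t.Q.dg b) ≤ w * (N * b - gam (shf F a w) b + δ / w) := by
    have e : w * (N * b - gam (shf F a w) b + δ / w) = N * (w * b) - w * gam (shf F a w) b + δ := by
      rw [mul_add, mul_div_cancel₀ _ hw.ne']
      ring
    rw [e]
    linarith
  exact le_of_mul_le_mul_left h6 hw

/-- the entropy of the zoom at the level `1` -/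
theorem GW.zH1 {L : Set ℝ} (hN2 : ROW_N2) {v : ℕ}
    {F : Fin N → ℝ} {y ε a w δ : ℝ} {s : MSys S N (lin g) (Fin r)} {κ : ℕ} (Z : Zst s κ y a w (gam F a))
    (h : GW L F y (a + w) ε s Z.W) (hi : Pool.Agent.Helper29.MX.Inv v s) (hδ : N * a - gam F a ≤ v * (a - y) + δ)
    (hε : 0 ≤ ε) : H (Z.t.Q.dg 1) ≤ N - gam (shf F a w) 1 - ε + δ / w := by
  have h1 := hN2 S N g r κ v s y a w (gam F a) Z 1 zero_le_one le_rfl hi
  have hw := Z.hu
  rw [mul_one] at h1
  have h4 := h.hr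
  have h5 := gam_shf F (a := a) hw zero_le_one
  rw [mul_one] at h5
  have hw1 : w ≤ 1 := by
    have := Z.h1
    linarith [Z.h0]
  have h7 : w * ε ≤ ε := mul_le_of_le_one_left hε hw1
  have h6 : w * H (Z.t.Q.dg 1) ≤ w * (N - gam (shf F a w) 1 - ε + δ / w) := by
    have e : w * (N - gam (shf F a w) 1 - ε + δ / w) = N * w - w * gam (shf F a w) 1 - w * ε + δ := by
      rw [mul_add, mul_div_cancel₀ _ hw.ne']
      ring
    rw [e]
    linarith
  exact le_of_mul_le_mul_left h6 hw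

/-! ### all events -/

/-- transversality from the codimensions of all events -/
theorem nhb_of [Finite ι] (t : MSys S N E ι) {γ b : ℝ} (h : 0 < b → b ≤ 1 → ∀ (A : ∀ k, (S.F k).Ω → Prop)
    (hA : 0 < ul (S.pr A)), UL (t.im (Pj.id S) A hA) b 0 ≤ γ) : NHb t γ b := by
  intro h0 h1 D
  refine Pool.Agent.Helper38.NSL.nhet_of_stab (κ := ι) (t.trn b h0 h1) (rbot (S.chg S.tr b h0)) 0 (fun i => i)
    (fun i => ⟨i, ?_⟩) fun A hA x hx => ?_
  · show Nul _ (fun k => Pool.Agent.Helper31.EC.h _ _)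
    have e : (fun k => Pool.Agent.Helper31.EC.h (((t.trn b h0 h1).lf i).win 0 k) (((t.trn b h0 h1).lf i).win 0 k)) =
        fun _ => (0 : ℝ) := funext fun k => h_self _
    rw [e]
    exact Nul_zero _
  · have h2 := h h0 h1 A hA
    rw [UL_eq _ h0 h1, zero_div] at h2
    have h3 : volKO ((t.trn b h0 h1).im (Pj.id (S.chg S.tr b h0)) A hA) (rbot _) 0 ≤
        vol ((t.trn b h0 h1).im (Pj.id (S.chg S.tr b h0)) A hA).Q D x := volKO_le_of hx
    have h4 : b * (N - volKO ((t.trn b h0 h1).im (Pj.id (S.chg S.tr b h0)) A hA) (rbot _) 0) ≤ γ := h2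
    have h5 : (N : ℝ) - volKO ((t.trn b h0 h1).im (Pj.id (S.chg S.tr b h0)) A hA) (rbot _) 0 ≤ γ / b := by
      rw [le_div_iff₀ h0]
      linarith
    linarith

/-- events of extensions of a zoom -/
theorem zim (hIMZ : ROW_IMZ) {s : MSys S N (lin g) (Fin r)} {κ : ℕ} {y a w U : ℝ} (Z : Zst s κ y a w U)
    {p : Pj T ((Lab.ofZ Z.W).ovr w Z.hu)} {B : ∀ k, (T.F k).Ω → Prop} (hB : 0 < ul (T.pr B))
    {Φ : ∀ S : Sp, MSys S N (lin κ) (Fin r) → Prop} (hΦ : ∀ (T' : Sp) (p' : Pj T' S) (A' : ∀ k, (T'.F k).Ω → Prop)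
      (hA' : 0 < ul (T'.pr A')) (Z' : Zst (s.im p' A' hA') κ y a w U), (∀ k, Z'.W k = Z.W k) → Φ _ Z'.t) :
    Φ _ (Z.t.im p B hB) := by
  obtain ⟨T', p', A', hA', Z', h1, h2⟩ := hIMZ S N g r κ s y a w U Z T p B hB
  have h3 := hΦ T' p' A' hA' Z' h2
  have h4 : (fun x : Σ S : Sp, MSys S N (lin κ) (Fin r) => Φ x.1 x.2) ⟨_, Z'.t⟩ := h3
  rw [h1] at h4
  exact h4

variable {L : Set ℝ} {u h : ℝ → ℝ → ℝ} {V : ℝ → ℝ → ℕ → ℝ}

/-- the numbers of a member of a robust class over a maximal label, on all events -/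
theorem gw_all (hLEV : ROW_LEV) (hKAP : ROW_KAP) (hCST : ROW_CST N) (hC : Okc N A C)
    (hF : FC C m v g r i j L u h V P) {s : MSys S N (lin g) (Fin r)} (hs : Mem C m v g r i j P S s) {y r' ε : ℝ}
    {F : Fin N → ℝ} (hy : 0 ≤ y) (hy1 : y ≤ 1) (hFe : ∀ e ∈ L, y ≤ e → e ≤ 1 → u e y = gam F e) (hr : r' ∈ L)
    (hr0 : 0 < r') (hr1 : r' ≤ 1) (hyr : y ≤ r') (hε : ε ≤ N * r' - u r' y - h r' y) {W : Rsl S}
    (hW : s.IsKap y (Lab.ofZ W)) (p : Pj T S) (B : ∀ k, (T.F k).Ω → Prop) (hB : 0 < ul (T.pr B)) :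
    GW L F y r' ε (s.im p B hB) W := by
  have hs' := mem_im hC hF.cls hs p B hB
  obtain ⟨h1, h2⟩ := hKAP N g r i j S s hs.1.2 y (Lab.ofZ W) hy hy1 hW
  have h3 : ∀ e ∈ L, 0 < e → e ≤ 1 → H (up1 (Lab.ofZ (S := Sp.im p B) W) ((s.im p B hB).Q.dg e)) ≤ h e y := by
    intro e he h0 h1'
    refine (hCST C m v g r i j L u h V P hF S s hs e he h0 h1' y hy hy1 W h1 ?_ T p B hB).2
    rw [← hF.hl S s hs e he h0 h1' y hy hy1]
    exact h2 e h0 h1'
  have h4 : ∀ e ∈ L, 0 < e → e ≤ 1 → y ≤ e → h e y ≤ N * e - gam F e := by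
    intro e he h0 h1' hye
    have h5 := (hLEV _ N g r (s.im p B hB)).2.2.2.1 e y h0 h1' hy hye
    rw [hF.hl _ _ hs' e he h0 h1' y hy hy1, hF.ul _ _ hs' e he h0 h1' y hy hye, hFe e he hye h1'] at h5
    exact h5
  refine ⟨fun e he h0 h1' hye => ?_, fun e he h0 h1' hye => (h3 e he h0 h1').trans (h4 e he h0 h1' hye), ?_⟩
  · rw [hF.ul _ _ hs' e he h0 h1' y hy hye, hFe e he hye h1']
  · have h6 := h3 r' hr hr0 hr1
    rw [hFe r' hr hyr hr1] at hε
    linarith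

/-- the bounds of the zooms -/
def Bds (E : Fin N → ℝ) (d η : ℝ) (S : Sp) (t : MSys S N (lin g) (Fin r)) (_ : Rsl S) : Prop :=
  (∀ b : ℝ, 0 ≤ b → b ≤ 1 → H (t.Q.dg b) ≤ N * b - gam E b + η) ∧ H (t.Q.dg 1) ≤ N - gam E 1 - d + η ∧
    ∀ b : ℝ, 0 < b → b ≤ 1 → UL t b 0 ≤ gam E b + η

/-- the bounds of the zoom, on all events -/
theorem zoom_all (hLEV : ROW_LEV) (hIMZ : ROW_IMZ) (hN1 : ROW_N1) (hN2 : ROW_N2)
    (rat : ∀ e : ℚ, (0 : ℝ) < e → (e : ℝ) ≤ 1 → (e : ℝ) ∈ L) {F E : Fin N → ℝ} {y ε a w δ δ' w₀ : ℝ}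
    {s : MSys S N (lin g) (Fin r)} {κ : ℕ} (Z : Zst s κ y a w (gam F a))
    (hG : AllE (fun _ t R => GW L F y (a + w) ε t R ∧ Pool.Agent.Helper29.MX.Inv v t) S s Z.W) (ha : 0 < a)
    (hδ : N * a - gam F a ≤ v * (a - y) + δ) (hδ0 : 0 ≤ δ) (hε : 0 ≤ ε) (hE : ∑ i, |shf F a w i - E i| ≤ δ')
    (hw₀ : 0 < w₀) (hww : w₀ ≤ w) : AllE (Bds E ε (δ' + δ / w₀)) _ Z.t (rbot _) := by
  intro T p B hB
  refine zim hIMZ Z hB (Φ := fun S t => Bds E ε (δ' + δ / w₀) S t (rbot S)) fun T' p' A' hA' Z' hW => ?_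
  have e : Z'.W = Z.W := funext hW
  obtain ⟨h1, h2⟩ := hG T' p' A' hA'
  rw [← e] at h1
  have hc : ∀ b, |gam (shf F a w) b - gam E b| ≤ δ' := fun b => (gam_close _ _ b).trans hE
  have hdw : δ / w ≤ δ / w₀ := div_le_div_of_nonneg_left hδ0 hw₀ hww
  have hδ1 : 0 ≤ δ / w₀ := div_nonneg hδ0 hw₀.le
  refine ⟨fun b hb hb1 => ?_, ?_, fun b hb hb1 => ?_⟩
  · have h3 := h1.zH rat hN2 Z' h2 ha hδ hb hb1
    have h4 := abs_le.mp (hc b)
    linarith [h4.1]
  · have h3 := h1.zH1 hN2 Z' h2 hδ hε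
    have h4 := abs_le.mp (hc 1)
    linarith [h4.1]
  · have h3 := h1.zul rat hLEV hN1 Z' ha hb hb1
    have h4 := abs_le.mp (hc b)
    linarith [h4.2]

/-- literal optimal forms of the type-labels -/
theorem lit_form (t : MSys S N (lin g) (Fin r)) (D : ℕ) (b : ℝ) : ∃ (V : Rsl S) (x : ∀ k, FD (S.F k) (Mon N D)),
    (∀ k, (x k).l = Lab.ofZ V k) ∧ KAd t (rbot S) D b x ∧ TLb t b (Lab.ofZ V) ∧ ∀ D' : ℕ, D' ≤ D →
      ∀ y : ∀ k, FD (S.F k) (Mon N D'), KAd t (rbot S) D' b y → vol t.Q D x ≤ vol t.Q D' y := by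
  obtain ⟨L, -, h1⟩ := Pool.Agent.Helper61.SEL.exists_LF t (rbot S) D b
  refine ⟨L.Z, L.fd, fun k => rfl, h1.1, fun i => ?_, fun D' hD y hy => ?_⟩
  · have h2 := (kad_bot.mp h1.1).dm
    exact h2 i
  · rw [← volK_of_opt h1]
    exact (Pool.Agent.Helper61.SEL.volK_deg t (rbot S) b hD).trans (volK_le_of hy)

end

end Pool.Agent.Helper15.FST
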