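import Pool.Agent.Helper15.FST.Cas

/-! Case (C) of FIRST: `ROW_C` from the other rows. -/

set_option autoImplicit false

namespace Pool.Agent.Helper15.FST

open Finset Filter Topology Matrix Pool.Agent.Helper69.RK Pool.Agent.Helper31.EC Pool.Agent.Helper31.EC.Sp
open Pool.Agent.Helper40.EL Pool.Agent.Helper89.LX Pool.Agent.Helper84.MT
open Pool.Agent.Helper49.MD Pool.Agent.Helper36.AM
open Pool.Agent.Helper3.LF (Mon)
open Pool.Agent.Helper29.MX

noncomputable section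

variable {S : Sp} {N : ℕ} {E : ℕ → ℕ} {ι : Type}

theorem volP_self (s : MSys S N E ι) (R : Rsl S) (c : ℝ) : volP s R c le_rfl = volKO s R c := by
  rw [volKO_eq]
  rfl

/-- **[C]**: no jumps -/
theorem row_c (hLEV : ROW_LEV) (hLVF : ROW_LVF) (hEXH : ROW_EXH) (hKAP : ROW_KAP) (hCST : ROW_CST N)
    (hIMZ : ROW_IMZ) (hN1 : ROW_N1) (hN2 : ROW_N2) (hN3 : ROW_N3) (hEQ : ROW_EQ) (hZEX : ROW_ZEX N) (hNUM : ROW_NUM N)
    (hEXPO : ROW_EXPO N) (hLIMJ : ROW_LIMJ N) (hNSLJ : NSLJ N) (hCN : CNUM) : ROW_C N := by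
  intro A C hC hst m v g r i j L u h V P hg hN hSTO hF rat c a θ ε hc hca haθ hθ haL hε h1 h2 h3 h4 h5
  have hnum := nums_of hLEV hEXH hNUM hEXPO hst hg hN hC hF rat
  obtain ⟨E, hE, hE2, hx⟩ := hCN N v L u h hN hnum c a θ ε hc hca haθ hθ haL hε h1 h2 h3 h4 h5
  obtain ⟨S, x₀, hx₀⟩ := hF.cls.ne
  obtain ⟨s, hs1, hs2⟩ := hF.ety S x₀ hx₀
  have hs : Mem C m v g r i j P S s := ⟨hs2, hF.cls.ev S x₀ (ob s) (hs1.mono fun _ hk => hk.symm) hx₀⟩
  obtain ⟨κ, hκ, hz⟩ := hZEX A C hC hst v m g r i j (c / 2) hg (half_pos hc)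
  obtain ⟨DL, hDL, hLV⟩ := hLVF N κ r hκ hst
  obtain ⟨D0, hD0, hEx⟩ := hEXH N κ r hκ hN hst
  obtain ⟨e0, he0⟩ : ∃ e0 : ℕ, ∀ i, (s.lf i).e ≤ e0 :=
    ⟨Finset.univ.sup fun i => (s.lf i).e, fun i => Finset.le_sup (f := fun i => (s.lf i).e) (Finset.mem_univ i)⟩
  have hw₀ : 0 < θ - a := by linarith
  have ha0 : 0 < a := by linarith
  have ha1 : a ≤ 1 := by linarith
  have key : ∀ δ : ℝ, 0 < δ → δ ≤ 1 / 2 → δ ≤ (θ - a) / 2 → ∃ b : ℝ, 0 ≤ b ∧ b ≤ δ / (θ - a) ∧ ∃ S' t W,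
      Gt (C m) v κ r e0 (max D0 DL) E ε b (2 * δ + δ / (θ - a)) S' t W := by
    intro δ hδ hδ1 hδ2
    obtain ⟨y, r', p, F, hy1, hy2, hy3, hr, hp, hθr, hr1, hcp, hpr, hrp, hup, hur, hFe, hsum, hdef, hres⟩ := hx δ hδ
    have hy0 : 0 < y := by linarith
    have hya : y ≤ a := by linarith
    have hw : 0 < r' - a := by linarith
    have hww : θ - a ≤ r' - a := by linarith
    have har : a + (r' - a) = r' := by ring
    have hr0 : 0 < r' := by linarith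
    have hz1 := hz S s hs.1 y a (r' - a) (V a y) hy1 (by linarith) hw (by linarith)
      (fun h0 h1 T q B hB k hk => hF.pf _ _ (mem_im hC hF.cls hs q B hB) a haL h0 h1 y hy0.le hya k hk)
    have hU : a * (N - V a y N) = gam F a := by
      rw [← hFe a haL hya ha1, ← hF.ul S s hs a haL ha0 ha1 y hy0.le hya, UL_eq _ ha0 ha1,
        ← volP_self, hF.pf S s hs a haL ha0 ha1 y hy0.le hya N le_rfl]
    have cast : ∀ U : ℝ, U = gam F a → (∃ Z : Zst s κ y a (r' - a) U, s.IsKap y (Lab.ofZ Z.W) ∧ C m _ κ r Z.t ∧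
        Pool.Agent.Helper29.MX.Inv v Z.t ∧ (∀ i, (Z.t.lf i).e = (s.lf i).e) ∧
        Pool.Agent.Helper26.OUT.WDs (fun _ => (κ : ℝ)) Z.t) → ∃ Z : Zst s κ y a (r' - a) (gam F a),
        s.IsKap y (Lab.ofZ Z.W) ∧ C m _ κ r Z.t ∧ Pool.Agent.Helper29.MX.Inv v Z.t ∧
        (∀ i, (Z.t.lf i).e = (s.lf i).e) ∧ Pool.Agent.Helper26.OUT.WDs (fun _ => (κ : ℝ)) Z.t := by
      rintro U rfl h
      exact h
    obtain ⟨Z, hK, hCt, hIt, hdt, hpt⟩ := cast _ hU hz1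
    have hG : AllE (fun _ t R => GW L F y (a + (r' - a)) ε t R ∧ Pool.Agent.Helper29.MX.Inv v t) S s Z.W := by
      intro T q B hB
      refine ⟨?_, inv_im hs.1.1.2 q B hB⟩
      rw [har]
      exact gw_all hLEV hKAP hCST hC hF hs hy0.le (by linarith) hFe hr hr0 hr1 (by linarith) hdef hK q B hB
    have hres' : N * a - gam F a ≤ v * (a - y) + δ := by
      rw [← hFe a haL hya ha1]
      exact hres
    have hAll := zoom_all hLEV hIMZ hN1 hN2 rat Z hG ha0 hres' hδ.le hε.le (E := E) (δ' := δ) hsum hw₀ hww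
    have hx0 : 0 ≤ (c - y) / (r' - a) := div_nonneg (by linarith) hw.le
    have hxd : (c - y) / (r' - a) ≤ δ / (θ - a) := div_le_div₀ hδ.le hy3 hw₀ hww
    have hd2 : δ / (θ - a) ≤ 1 / 2 := by
      rw [div_le_iff₀ hw₀]
      linarith
    have hd0 : 0 ≤ δ / (θ - a) := div_nonneg hδ.le hw₀.le
    have hxc : y + (r' - a) * ((c - y) / (r' - a)) = c := by
      rw [mul_div_cancel₀ _ hw.ne']
      ring
    refine ⟨(c - y) / (r' - a), hx0, hxd, ?_⟩
    have hdt' : ∀ i, (Z.t.lf i).e ≤ e0 := fun i => (hdt i).le.trans (he0 i)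
    by_cases hcase : UL Z.t 1 ((c - y) / (r' - a)) ≤ UL Z.t (1 - δ) ((c - y) / (r' - a))
    · have hlv := hLV _ Z.t (1 - δ) ((c - y) / (r' - a)) (by linarith) (by linarith) hx0 (by linarith) hcase
      have hcr : c ≤ r' := hcp.trans hpr.le
      have hH : h r' c ≤ HL s (a + (r' - a)) c := by
        rw [har, hF.hl S s hs r' hr hr0 hr1 c hc.le (hcr.trans hr1)]
      have h1L : (1 : ℝ) ∈ L := by
        have := rat 1 (by norm_num) (by norm_num)
        simpa using this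
      have hd : N * (a + (r' - a)) - UL s 1 c - h r' c ≤ δ := by
        rw [har, hF.ul S s hs 1 h1L one_pos le_rfl c hc.le (hcr.trans hr1), ← hur]
        have := hnum.sat p hp r' hr c (hc.trans_le hcp) hpr hr1 hc.le hcp hup
        linarith
      obtain ⟨W, hW⟩ := ful_u hLEV hEQ hN3 Z hDL (le_max_right D0 DL) hx0 (by linarith) hxc (by linarith)
        (by linarith) hlv hH hd
      have hdw : δ / (r' - a) ≤ δ / (θ - a) := div_le_div_of_nonneg_left hδ.le hw₀ hww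
      exact ⟨_, Z.t, W, hCt, hIt, hdt', hpt, fun T q B hB => (hAll T q B hB).mono (by linarith), hW.mono (by linarith)⟩
    · push Not at hcase
      obtain ⟨B, hB, W, hW⟩ := ful_s (hEx (max D0 DL) (le_max_left _ _) _ Z.t (1 - δ) ((c - y) / (r' - a)) (2 * δ)
        (by linarith) (by linarith) (by linarith) hx0 (by linarith) hcase)
      refine ⟨_, Z.t.im (Pj.id _) B hB, W, hC.im m _ κ r Z.t hCt _ (Pj.id _) B hB, inv_im hIt _ B hB, hdt',
        hpt.im (fun _ => Nat.cast_nonneg _) _ B hB, ?_, hW.mono (by linarith)⟩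
      have hb := Pool.Agent.Helper52.MW.AllE_im hAll (Pj.id _) B hB
      exact fun T q B' hB' => (hb T q B' hB').mono (by linarith)
  obtain ⟨δ₀, hδ₀, hδ₁, hδ₂⟩ : ∃ δ₀ : ℝ, 0 < δ₀ ∧ δ₀ ≤ 1 / 2 ∧ δ₀ ≤ (θ - a) / 2 :=
    ⟨min (1 / 2) ((θ - a) / 2), lt_min (by norm_num) (by linarith), min_le_left _ _, min_le_right _ _⟩
  have hdn : ∀ n : ℕ, 0 < δ₀ / ((n : ℝ) + 1) ∧ δ₀ / ((n : ℝ) + 1) ≤ δ₀ := fun n => by
    have hn : (0 : ℝ) ≤ n := Nat.cast_nonneg n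
    exact ⟨div_pos hδ₀ (by linarith), div_le_self hδ₀.le (by linarith)⟩
  choose b hb0 hb1 S' t W hGt using fun n : ℕ => key (δ₀ / ((n : ℝ) + 1)) (hdn n).1 ((hdn n).2.trans hδ₁)
    ((hdn n).2.trans hδ₂)
  have hlim : Tendsto (fun n : ℕ => δ₀ / ((n : ℝ) + 1)) atTop (𝓝 0) := tendsto_const_div_atTop_nhds_zero_nat δ₀ |>.comp
    (tendsto_add_atTop_nat 1) |>.congr fun n => by
      show δ₀ / (((n + 1 : ℕ) : ℝ)) = _
      rw [Nat.cast_add, Nat.cast_one]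
  have hlim2 : Tendsto (fun n : ℕ => δ₀ / ((n : ℝ) + 1) / (θ - a)) atTop (𝓝 0) := by
    have := hlim.div_const (θ - a)
    rwa [zero_div] at this
  have hlim3 : Tendsto (fun n : ℕ => 2 * (δ₀ / ((n : ℝ) + 1)) + δ₀ / ((n : ℝ) + 1) / (θ - a)) atTop (𝓝 0) := by
    have := (hlim.const_mul 2).add hlim2
    rwa [mul_zero, add_zero] at this
  have hblim : Tendsto b atTop (𝓝 0) := squeeze_zero hb0 hb1 hlim2
  have hr : 0 < r := i.pos
  obtain ⟨S₁, T, V', hJ, hFul⟩ := hLIMJ A C hC hst v m κ r e0 (max D0 DL) E ε b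
    (fun n => 2 * (δ₀ / ((n : ℝ) + 1)) + δ₀ / ((n : ℝ) + 1) / (θ - a)) hκ (hD0.trans (le_max_left _ _))
    (fun n => ⟨hb0 n, (hb1 n).trans (by
      rw [div_le_one hw₀]
      linarith [(hdn n).2])⟩) hblim
    (fun n => by
      have := (hdn n).1
      have := div_nonneg this.le hw₀.le
      linarith) hlim3 S' t W (fun n => (hGt n).cl) (fun n => (hGt n).inv) (fun n => (hGt n).dim)
    (fun n => (hGt n).pol) (fun n T q B hB => ⟨((hGt n).bds T q B hB).2.1, ((hGt n).bds T q B hB).1⟩)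
    (fun n x _ _ => (hGt n).nhb x) (fun n => (hGt n).ful)
  exact hNSLJ A C hC hst v hSTO m κ r e0 E ε hκ hr hN hε hE hE2 S₁ T hJ (max D0 DL) V' (hD0.trans (le_max_left _ _)) hFul

end

end Pool.Agent.Helper15.FST
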