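import Pool.Agent.Helper15.FST.Rc
import Pool.Agent.Helper10.FST.Cn
import Pool.Agent.Helper13.FST.Kap
import Pool.Agent.Helper37.FST.Eq
import Pool.Agent.Helper37.FST.Fin
import Pool.Agent.Helper61.FST.Exh
import Pool.Agent.Helper56.IMZ.Imz
import Pool.Agent.Helper69.FST.Lev
import Pool.Agent.Helper36.FST.Limj
import Pool.Agent.Helper93.FST.N1
import Pool.Agent.Helper80.FST.Row2
import Pool.Agent.Helper5.FN3.N3
import Pool.Agent.Helper89.NUM.Row
import Pool.Agent.Helper60.FST.Lvf
import Pool.Agent.Helper93.EXPO.Main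
import Pool.Agent.Helper76.FDG.Row
import Pool.Agent.Helper29.NJ.Prw
import Pool.Agent.Helper39.FST.B
import Pool.Agent.Helper46.FST.Trv
import Pool.Agent.Helper80.FST.Row4
import Pool.Agent.Helper82.RGU.Row

/-! [C] with all its rows, modulo NSLJ. -/

set_option autoImplicit false

namespace Pool.Agent.Helper15.FST

/-- **[C]**: no jumps, from NSLJ -/
theorem rowc (N : ℕ) (hNSLJ : NSLJ N) : ROW_C N :=
  row_c Helper69.FST.row_lev Helper60.FST.row_lvf Helper61.FST.row_exh Helper13.FST.row_kap (Helper13.FST.row_cst N)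
    Helper56.IMZ.row_imz Helper93.FST.row_n1 Helper80.FST.row_n2 Helper5.FN3.row_n3
    (Helper37.FST.row_eq Helper69.FST.row_lev) (Helper37.FST.zex N)
    (Helper89.NUM.row_num Helper69.FST.row_lev Helper60.FST.row_lvf Helper61.FST.row_exh Helper13.FST.row_kap N)
    (Helper93.EXPO.expo Helper69.FST.row_lev (Helper76.FDG.row_fdg N) Helper29.NJ.row_ptw)
    (Helper36.FST.row_limj N) hNSLJ Helper10.FST.cnum

/-- **[B]**, from NSLJ -/
theorem rowb (N : ℕ) (hNSLJ : NSLJ N) : ROW_B N :=
  Helper39.FST.row_b N Helper69.FST.row_lev Helper60.FST.row_lvf Helper46.FST.row_trv Helper82.RGU.row_rgu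
    Helper61.FST.row_exh Helper13.FST.row_kap Helper56.IMZ.row_imz Helper93.FST.row_n1 Helper5.FN3.row_n3
    Helper80.FST.row_n4 (Helper37.FST.row_eq Helper69.FST.row_lev) (Helper37.FST.zex N) (Helper13.FST.row_cst N)
    (Helper89.NUM.row_num Helper69.FST.row_lev Helper60.FST.row_lvf Helper61.FST.row_exh Helper13.FST.row_kap N)
    (Helper36.FST.row_limj N) hNSLJ

end Pool.Agent.Helper15.FST
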