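import Pool.Agent.Helper15.FST.St

/-! The row [ZMX] of FIRST, final form (helper37: constant prefix volumes of the level `a`). -/

set_option autoImplicit false

namespace Pool.Agent.Helper15.FST

open Finset Filter Topology Matrix Pool.Agent.Helper69.RK Pool.Agent.Helper31.EC Pool.Agent.Helper31.EC.Sp
open Pool.Agent.Helper40.EL Pool.Agent.Helper89.LX Pool.Agent.Helper84.MT
open Pool.Agent.Helper49.MD Pool.Agent.Helper36.AM
open Pool.Agent.Helper3.LF (Mon)
open Pool.Agent.Helper29.MX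

noncomputable section

/-- [ZMX] (helper63, numbers of zooms; helper37, conversion) zooms over maximal labels at a rigid window `c`, in optimal
flag rows; the hull of the window `c` is complete at the level `a`, the prefix volumes of the level `a` are constant;
numbers of all prefixes. `κ` depends on `c₀`, `g`, the dimensions `e0` only. Replaces `ROW_ZMX` of `St` -/
def ROW_ZMXP (M : ℕ) : Prop := ∀ (A : MCl (M + 1)) (C : ℕ → MCl (M + 1)), 1 ≤ M → Okc (M + 1) A C →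
  (∀ m, m < M + 1 → STu m) → ∀ (v m g r e0 : ℕ) (i j : Fin r) (c₀ : ℝ), 1 ≤ g → 0 < c₀ → ∃ κ : ℕ, 1 ≤ κ ∧
    ∀ (S : Sp) (s : MSys S (M + 1) (lin g) (Fin r)), Ety C m v g r i j S s → (∀ i, (s.lf i).e ≤ e0) →
      ∀ (c a w b1 : ℝ) (P : ℕ → ℝ), c₀ ≤ c → c < a → 0 < w → a + w ≤ 1 → 0 < b1 → b1 ≤ 1 → UL s 1 c ≤ UL s a c →
        (∀ (h0 : 0 < a) (h1 : a ≤ 1) (T : Sp) (p : Pj T S) (B : ∀ k, (T.F k).Ω → Prop) (hB : 0 < ul (T.pr B)) (j : ℕ)
          (hj : j ≤ M + 1), volP ((s.im p B hB).trn a h0 h1) (rbot _) (c / a) hj = P j) →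
        (∀ (T : Sp) (p : Pj T S) (B : ∀ k, (T.F k).Ω → Prop) (hB : 0 < ul (T.pr B)) (c' : ℝ), c ≤ c' → c' < c + w * b1 →
          ∀ (j : ℕ) (hj : j ≤ M + 1), volP (s.im p B hB) (rbot _) c' hj = volP s (rbot S) c' hj) →
        (∀ b : ℝ, 0 ≤ b → b < b1 → UL s 1 (c + w * b) < UL s 1 c + w) →
          ∃ Z : Zst s κ c a w (UL s 1 c), s.IsKap c (Lab.ofZ Z.W) ∧
            Pool.Agent.Helper94.SEL.BK (C m) v κ r e0 b1 _ Z.t (rbot _) ∧
            ∀ b : ℝ, 0 ≤ b → b < b1 → ∀ (j : ℕ) (hj : j ≤ M + 1), Pool.Agent.Helper94.SEL.num Z.t (rbot _) hj b =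
              (Pool.Agent.Helper94.SEL.num s (rbot S) hj (c + w * b) - Pool.Agent.Helper94.SEL.num s (rbot S) hj c) / w

end

end Pool.Agent.Helper15.FST
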